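import Pool.Agent.Helper61.KV.Th

/-!
# Packet KV-ECL1: closure properties of the function classes
-/

set_option autoImplicit false

namespace Pool.Agent.Helper61.KV

open Real MeasureTheory Pool.Agent.Helper41.KV

lemma cda {f : ℝ → ℝ} (hf : ContDiff ℝ (⊤ : ℕ∞) f) (k : ℕ) (y : ℝ) : ContDiffAt ℝ k f y :=
  (hf.of_le (by exact_mod_cast le_top)).contDiffAt

/-- the polynomial weight is absorbed by an exponential -/
lemma poly_exp (n : ℕ) (δ : ℝ) (hδ : 0 < δ) : ∃ K : ℝ, 0 ≤ K ∧ ∀ x : ℝ, 0 ≤ x →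
    (1 + x) ^ n ≤ K * exp (δ * x) := by
  set d : ℝ := δ / (n + 1) with hd
  have hn : (0 : ℝ) < (n : ℝ) + 1 := by positivity
  have hd0 : 0 < d := by positivity
  refine ⟨(1 + 1 / d) ^ n, by positivity, fun x hx => ?_⟩
  have h1 : 1 + x ≤ (1 + 1 / d) * exp (d * x) := by
    have h2 : d * x + 1 ≤ exp (d * x) := Real.add_one_le_exp _
    have hdx : 0 ≤ d * x := by positivity
    have h3 : 1 ≤ exp (d * x) := by linarith
    have h4 : x ≤ 1 / d * exp (d * x) := by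
      rw [one_div, inv_mul_eq_div, le_div_iff₀ hd0]
      linarith
    calc 1 + x ≤ exp (d * x) + 1 / d * exp (d * x) := add_le_add h3 h4
      _ = _ := by ring
  calc (1 + x) ^ n ≤ ((1 + 1 / d) * exp (d * x)) ^ n :=
        pow_le_pow_left₀ (by linarith) h1 n
    _ = (1 + 1 / d) ^ n * exp (n * (d * x)) := by rw [mul_pow, ← Real.exp_nat_mul]
    _ ≤ (1 + 1 / d) ^ n * exp (δ * x) := by
        apply mul_le_mul_of_nonneg_left _ (by positivity)
        apply exp_le_exp.mpr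
        have h5 : (n : ℝ) * d ≤ δ := by
          rw [hd]
          rw [mul_div_assoc', div_le_iff₀ hn]
          nlinarith
        calc (n : ℝ) * (d * x) = (n * d) * x := by ring
          _ ≤ δ * x := mul_le_mul_of_nonneg_right h5 hx

/-- Leibniz -/
lemma prod_bd {f g : ℝ → ℝ} (hf : ContDiff ℝ (⊤ : ℕ∞) f) (hg : ContDiff ℝ (⊤ : ℕ∞) g) (k : ℕ)
    (y a b : ℝ) (ha : ∀ i ≤ k, |iteratedDeriv i f y| ≤ a)
    (hb : ∀ i ≤ k, |iteratedDeriv i g y| ≤ b) :
    |iteratedDeriv k (fun y => f y * g y) y| ≤ 2 ^ k * (a * b) := by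
  rw [iteratedDeriv_fun_mul (cda hf k y) (cda hg k y)]
  have ha0 : 0 ≤ a := (abs_nonneg _).trans (ha 0 (Nat.zero_le _))
  calc |∑ i ∈ Finset.range (k + 1), (k.choose i : ℝ) * iteratedDeriv i f y *
        iteratedDeriv (k - i) g y|
      ≤ ∑ i ∈ Finset.range (k + 1), |(k.choose i : ℝ) * iteratedDeriv i f y *
        iteratedDeriv (k - i) g y| := Finset.abs_sum_le_sum_abs _ _
    _ ≤ ∑ i ∈ Finset.range (k + 1), (k.choose i : ℝ) * (a * b) := by
        apply Finset.sum_le_sum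
        intro i hi
        rw [Finset.mem_range] at hi
        rw [abs_mul, abs_mul, Nat.abs_cast, mul_assoc]
        apply mul_le_mul_of_nonneg_left _ (Nat.cast_nonneg _)
        exact mul_le_mul (ha i (by omega)) (hb (k - i) (by omega)) (abs_nonneg _) ha0
    _ = 2 ^ k * (a * b) := by
        rw [← Finset.sum_mul]
        congr 1
        exact_mod_cast Nat.sum_range_choose k

/-- uniform bounds for finitely many derivatives, class `IsP` -/
lemma unifP {f : ℝ → ℝ} (hf : IsP f) (k : ℕ) : ∃ (n : ℕ) (C : ℝ), 0 ≤ C ∧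
    ∀ i ≤ k, ∀ y, |iteratedDeriv i f y| ≤ C * (1 + |y|) ^ n := by
  induction k with
  | zero =>
    obtain ⟨n, C, hC⟩ := hf.2 0
    refine ⟨n, |C|, abs_nonneg _, fun i hi y => ?_⟩
    have : i = 0 := by omega
    subst this
    exact (hC y).trans (mul_le_mul_of_nonneg_right (le_abs_self C) (by positivity))
  | succ k ih =>
    obtain ⟨n, C, hC0, hC⟩ := ih
    obtain ⟨n', C', hC'⟩ := hf.2 (k + 1)
    refine ⟨max n n', C + |C'|, by positivity, fun i hi y => ?_⟩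
    have hy : 1 ≤ 1 + |y| := by linarith [abs_nonneg y]
    rcases Nat.lt_or_ge i (k + 1) with h | h
    · refine (hC i (by omega) y).trans ?_
      apply mul_le_mul _ (pow_le_pow_right₀ hy (le_max_left _ _)) (by positivity) (by positivity)
      linarith [abs_nonneg C']
    · have : i = k + 1 := by omega
      subst this
      refine (hC' y).trans ?_
      apply mul_le_mul _ (pow_le_pow_right₀ hy (le_max_right _ _)) (by positivity)
        (by positivity)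
      linarith [le_abs_self C']

/-- uniform bounds for finitely many derivatives on a set with a positive weight -/
lemma unifW {f : ℝ → ℝ} (S : Set ℝ) (w : ℝ → ℝ) (hw : ∀ y, 0 ≤ w y)
    (h : ∀ k : ℕ, ∃ C : ℝ, ∀ y ∈ S, |iteratedDeriv k f y| ≤ C * w y) (k : ℕ) :
    ∃ C : ℝ, 0 ≤ C ∧ ∀ i ≤ k, ∀ y ∈ S, |iteratedDeriv i f y| ≤ C * w y := by
  induction k with
  | zero =>
    obtain ⟨C, hC⟩ := h 0
    refine ⟨|C|, abs_nonneg _, fun i hi y hy => ?_⟩
    have : i = 0 := by omega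
    subst this
    exact (hC y hy).trans (mul_le_mul_of_nonneg_right (le_abs_self C) (hw y))
  | succ k ih =>
    obtain ⟨C, hC0, hC⟩ := ih
    obtain ⟨C', hC'⟩ := h (k + 1)
    refine ⟨C + |C'|, by positivity, fun i hi y hy => ?_⟩
    rcases Nat.lt_or_ge i (k + 1) with h | h
    · refine (hC i (by omega) y hy).trans (mul_le_mul_of_nonneg_right ?_ (hw y))
      linarith [abs_nonneg C']
    · have : i = k + 1 := by omega
      subst this
      refine (hC' y hy).trans (mul_le_mul_of_nonneg_right ?_ (hw y))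
      linarith [le_abs_self C']

lemma unifE {f : ℝ → ℝ} (hf : IsE f) (k : ℕ) (μ : ℝ) (hμ : μ < 1) : ∃ C : ℝ, 0 ≤ C ∧
    ∀ i ≤ k, ∀ y, |iteratedDeriv i f y| ≤ C * exp (-(μ * |y|)) := by
  obtain ⟨C, h0, hC⟩ := unifW (f := f) Set.univ (fun y => exp (-(μ * |y|)))
    (fun y => (exp_pos _).le) (fun k => by
      obtain ⟨C, hC⟩ := hf.2 k μ hμ
      exact ⟨C, fun y _ => hC y⟩) k
  exact ⟨C, h0, fun i hi y => hC i hi y (Set.mem_univ y)⟩

lemma unifR {f : ℝ → ℝ} (hf : IsW f) (k : ℕ) (μ : ℝ) (hμ : μ < 1) : ∃ C : ℝ, 0 ≤ C ∧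
    ∀ i ≤ k, ∀ y, 0 ≤ y → |iteratedDeriv i f y| ≤ C * exp (-(μ * y)) := by
  obtain ⟨C, h0, hC⟩ := unifW (f := f) (Set.Ici 0) (fun y => exp (-(μ * y)))
    (fun y => (exp_pos _).le) (fun k => by
      obtain ⟨C, hC⟩ := hf.2 k μ hμ
      exact ⟨C, fun y hy => hC y hy⟩) k
  exact ⟨C, h0, fun i hi y hy => hC i hi y hy⟩

lemma E_P {f : ℝ → ℝ} (hf : IsE f) : IsP f := by
  refine ⟨hf.1, fun k => ?_⟩
  obtain ⟨C, hC⟩ := hf.2 k 0 one_pos
  refine ⟨0, C, fun y => ?_⟩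
  simpa using hC y

lemma E_W {f : ℝ → ℝ} (hf : IsE f) : IsW f := by
  refine ⟨E_P hf, fun k μ hμ => ?_⟩
  obtain ⟨C, hC⟩ := hf.2 k μ hμ
  refine ⟨C, fun y hy => ?_⟩
  have := hC y
  rwa [abs_of_nonneg hy] at this

lemma addE {f g : ℝ → ℝ} (hf : IsE f) (hg : IsE g) : IsE (fun y => f y + g y) := by
  refine ⟨hf.1.add hg.1, fun k μ hμ => ?_⟩
  obtain ⟨C, hC⟩ := hf.2 k μ hμ
  obtain ⟨D, hD⟩ := hg.2 k μ hμ
  refine ⟨C + D, fun y => ?_⟩
  rw [iteratedDeriv_fun_add (cda hf.1 k y) (cda hg.1 k y), add_mul]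
  exact (abs_add_le _ _).trans (add_le_add (hC y) (hD y))

lemma addP {f g : ℝ → ℝ} (hf : IsP f) (hg : IsP g) : IsP (fun y => f y + g y) := by
  refine ⟨hf.1.add hg.1, fun k => ?_⟩
  obtain ⟨n, C, hC0, hC⟩ := unifP hf k
  obtain ⟨m, D, hD0, hD⟩ := unifP hg k
  refine ⟨max n m, C + D, fun y => ?_⟩
  have hy : 1 ≤ 1 + |y| := by linarith [abs_nonneg y]
  rw [iteratedDeriv_fun_add (cda hf.1 k y) (cda hg.1 k y), add_mul]
  refine (abs_add_le _ _).trans (add_le_add ?_ ?_)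
  · exact (hC k le_rfl y).trans
      (mul_le_mul_of_nonneg_left (pow_le_pow_right₀ hy (le_max_left _ _)) hC0)
  · exact (hD k le_rfl y).trans
      (mul_le_mul_of_nonneg_left (pow_le_pow_right₀ hy (le_max_right _ _)) hD0)

lemma addW {f g : ℝ → ℝ} (hf : IsW f) (hg : IsW g) : IsW (fun y => f y + g y) := by
  refine ⟨addP hf.1 hg.1, fun k μ hμ => ?_⟩
  obtain ⟨C, hC⟩ := hf.2 k μ hμ
  obtain ⟨D, hD⟩ := hg.2 k μ hμ
  refine ⟨C + D, fun y hy => ?_⟩
  rw [iteratedDeriv_fun_add (cda hf.1.1 k y) (cda hg.1.1 k y), add_mul]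
  exact (abs_add_le _ _).trans (add_le_add (hC y hy) (hD y hy))

lemma mulPP {f g : ℝ → ℝ} (hf : IsP f) (hg : IsP g) : IsP (fun y => f y * g y) := by
  refine ⟨hf.1.mul hg.1, fun k => ?_⟩
  obtain ⟨n, C, hC0, hC⟩ := unifP hf k
  obtain ⟨m, D, hD0, hD⟩ := unifP hg k
  refine ⟨n + m, 2 ^ k * (C * D), fun y => ?_⟩
  refine (prod_bd hf.1 hg.1 k y _ _ (fun i hi => hC i hi y) (fun i hi => hD i hi y)).trans
    (le_of_eq ?_)
  rw [pow_add]; ring

lemma mulPE {f g : ℝ → ℝ} (hf : IsP f) (hg : IsE g) : IsE (fun y => f y * g y) := by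
  refine ⟨hf.1.mul hg.1, fun k μ hμ => ?_⟩
  obtain ⟨n, C, hC0, hC⟩ := unifP hf k
  obtain ⟨D, hD0, hD⟩ := unifE hg k ((μ + 1) / 2) (by linarith)
  obtain ⟨K, hK0, hK⟩ := poly_exp n ((1 - μ) / 2) (by linarith)
  refine ⟨2 ^ k * (C * K * D), fun y => ?_⟩
  refine (prod_bd hf.1 hg.1 k y _ _ (fun i hi => hC i hi y) (fun i hi => hD i hi y)).trans ?_
  have h1 := hK |y| (abs_nonneg y)
  have h2 : exp (-(μ * |y|)) = exp ((1 - μ) / 2 * |y|) * exp (-((μ + 1) / 2 * |y|)) := by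
    rw [← Real.exp_add]; congr 1; ring
  rw [h2]
  have h3 : C * (1 + |y|) ^ n * (D * exp (-((μ + 1) / 2 * |y|)))
      ≤ C * (K * exp ((1 - μ) / 2 * |y|)) * (D * exp (-((μ + 1) / 2 * |y|))) := by
    apply mul_le_mul_of_nonneg_right _ (by positivity)
    exact mul_le_mul_of_nonneg_left h1 hC0
  calc 2 ^ k * (C * (1 + |y|) ^ n * (D * exp (-((μ + 1) / 2 * |y|))))
      ≤ 2 ^ k * (C * (K * exp ((1 - μ) / 2 * |y|)) * (D * exp (-((μ + 1) / 2 * |y|)))) :=
        mul_le_mul_of_nonneg_left h3 (by positivity)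
    _ = _ := by ring

lemma mulPW {f g : ℝ → ℝ} (hf : IsP f) (hg : IsW g) : IsW (fun y => f y * g y) := by
  refine ⟨mulPP hf hg.1, fun k μ hμ => ?_⟩
  obtain ⟨n, C, hC0, hC⟩ := unifP hf k
  obtain ⟨D, hD0, hD⟩ := unifR hg k ((μ + 1) / 2) (by linarith)
  obtain ⟨K, hK0, hK⟩ := poly_exp n ((1 - μ) / 2) (by linarith)
  refine ⟨2 ^ k * (C * K * D), fun y hy => ?_⟩
  refine (prod_bd hf.1 hg.1.1 k y _ _ (fun i hi => hC i hi y) (fun i hi => hD i hi y hy)).trans ?_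
  have h1 := hK y hy
  rw [abs_of_nonneg hy]
  have h2 : exp (-(μ * y)) = exp ((1 - μ) / 2 * y) * exp (-((μ + 1) / 2 * y)) := by
    rw [← Real.exp_add]; congr 1; ring
  rw [h2]
  have h3 : C * (1 + y) ^ n * (D * exp (-((μ + 1) / 2 * y)))
      ≤ C * (K * exp ((1 - μ) / 2 * y)) * (D * exp (-((μ + 1) / 2 * y))) := by
    apply mul_le_mul_of_nonneg_right _ (by positivity)
    exact mul_le_mul_of_nonneg_left h1 hC0
  calc 2 ^ k * (C * (1 + y) ^ n * (D * exp (-((μ + 1) / 2 * y))))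
      ≤ 2 ^ k * (C * (K * exp ((1 - μ) / 2 * y)) * (D * exp (-((μ + 1) / 2 * y)))) :=
        mul_le_mul_of_nonneg_left h3 (by positivity)
    _ = _ := by ring

lemma derP {f : ℝ → ℝ} (hf : IsP f) : IsP (deriv f) := by
  refine ⟨(contDiff_infty_iff_deriv.mp hf.1).2, fun k => ?_⟩
  obtain ⟨n, C, hC⟩ := hf.2 (k + 1)
  exact ⟨n, C, fun y => by rw [← iteratedDeriv_succ']; exact hC y⟩

lemma derE {f : ℝ → ℝ} (hf : IsE f) : IsE (deriv f) := by
  refine ⟨(contDiff_infty_iff_deriv.mp hf.1).2, fun k μ hμ => ?_⟩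
  obtain ⟨C, hC⟩ := hf.2 (k + 1) μ hμ
  exact ⟨C, fun y => by rw [← iteratedDeriv_succ']; exact hC y⟩

lemma derW {f : ℝ → ℝ} (hf : IsW f) : IsW (deriv f) := by
  refine ⟨derP hf.1, fun k μ hμ => ?_⟩
  obtain ⟨C, hC⟩ := hf.2 (k + 1) μ hμ
  exact ⟨C, fun y hy => by rw [← iteratedDeriv_succ']; exact hC y hy⟩

lemma itPoly (k : ℕ) : ∀ p : Polynomial ℝ, ∃ q : Polynomial ℝ, ∀ y : ℝ,
    iteratedDeriv k (fun y => p.eval y) y = q.eval y := by
  induction k with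
  | zero => intro p; exact ⟨p, fun y => by simp⟩
  | succ k ih =>
    intro p
    obtain ⟨q, hq⟩ := ih (Polynomial.derivative p)
    refine ⟨q, fun y => ?_⟩
    rw [iteratedDeriv_succ']
    have : deriv (fun y => p.eval y) = fun y => (Polynomial.derivative p).eval y := by
      funext y
      exact p.deriv
    rw [this]
    exact hq y

lemma polyP (p : Polynomial ℝ) : IsP (fun y => p.eval y) := by
  have hcd : ContDiff ℝ (⊤ : ℕ∞) (fun y : ℝ => p.eval y) := by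
    have h := p.contDiff_aeval (𝕜 := ℝ) (R := ℝ) (n := ((⊤ : ℕ∞) : WithTop ℕ∞))
    simpa using h
  refine ⟨hcd, fun k => ?_⟩
  obtain ⟨q, hq⟩ := itPoly k p
  refine ⟨q.natDegree, ∑ i ∈ Finset.range (q.natDegree + 1), |q.coeff i|, fun y => ?_⟩
  rw [hq, Polynomial.eval_eq_sum_range, Finset.sum_mul]
  refine (Finset.abs_sum_le_sum_abs _ _).trans (Finset.sum_le_sum fun i hi => ?_)
  rw [Finset.mem_range] at hi
  rw [abs_mul, abs_pow]
  apply mul_le_mul_of_nonneg_left _ (abs_nonneg _)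
  have hy : 1 ≤ 1 + |y| := by linarith [abs_nonneg y]
  calc |y| ^ i ≤ (1 + |y|) ^ i := pow_le_pow_left₀ (abs_nonneg _) (by linarith) i
    _ ≤ (1 + |y|) ^ q.natDegree := pow_le_pow_right₀ hy (by omega)

lemma thP : IsP (fun y => tanh (2 * y)) := by
  refine ⟨contDiff_th, fun k => ?_⟩
  obtain ⟨q, hq⟩ := gen (fun _ => 1) 0 (fun y => by
    simpa using hasDerivAt_const y (1 : ℝ)) k Polynomial.X
  obtain ⟨C, hC0, hC⟩ := th_bdd q
  refine ⟨0, C, fun y => ?_⟩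
  have h1 := hq y
  simp only [Polynomial.eval_X, one_mul] at h1
  rw [h1]
  simpa using hC y

lemma sechE : IsE (fun y => 1 / (cosh (2 * y)) ^ 2) := by
  have hder : ∀ y : ℝ, HasDerivAt (fun y : ℝ => 1 / (cosh (2 * y)) ^ 2)
      ((-4) * tanh (2 * y) * (1 / (cosh (2 * y)) ^ 2)) y := by
    intro y
    have hc : cosh (2 * y) ≠ 0 := (Real.cosh_pos _).ne'
    have h := ((hasDerivAt_c y).pow 2)
    have h2 := (hasDerivAt_const y (1 : ℝ)).div h (pow_ne_zero 2 hc)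
    refine h2.congr_deriv ?_
    simp only [Nat.cast_ofNat, Nat.add_one_sub_one, pow_one, zero_mul, zero_sub, Pi.pow_apply]
    rw [th_eq]
    field_simp
    ring
  refine ⟨contDiff_const.div (contDiff_c.pow 2) (fun y => pow_ne_zero 2 (Real.cosh_pos _).ne'),
    fun k μ hμ => ?_⟩
  obtain ⟨q, hq⟩ := gen (fun y => 1 / (cosh (2 * y)) ^ 2) (-4) hder k 1
  obtain ⟨C, hC0, hC⟩ := th_bdd q
  refine ⟨4 * C, fun y => ?_⟩
  have h1 := hq y
  simp only [Polynomial.eval_one, mul_one] at h1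
  rw [h1]
  have hc := Real.cosh_pos (2 * y)
  have hw : 1 / (cosh (2 * y)) ^ 2 ≤ 4 * exp (-(μ * |y|)) := by
    have h2 := le_cosh y
    rw [div_le_iff₀ (by positivity)]
    have h5 : (exp (2 * |y|)) ^ 2 ≤ (2 * cosh (2 * y)) ^ 2 :=
      pow_le_pow_left₀ (exp_pos _).le h2 2
    have h6 : 1 ≤ exp (-(μ * |y|)) * (exp (2 * |y|)) ^ 2 := by
      rw [← Real.exp_nat_mul, ← Real.exp_add]
      apply Real.one_le_exp
      push_cast
      have := abs_nonneg y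
      nlinarith
    have h7 : exp (-(μ * |y|)) * (exp (2 * |y|)) ^ 2
        ≤ exp (-(μ * |y|)) * (2 * cosh (2 * y)) ^ 2 :=
      mul_le_mul_of_nonneg_left h5 (exp_pos _).le
    nlinarith
  have hw0 : 0 ≤ 1 / (cosh (2 * y)) ^ 2 := by positivity
  rw [abs_mul, abs_of_nonneg hw0]
  calc 1 / (cosh (2 * y)) ^ 2 * |q.eval (tanh (2 * y))|
      ≤ (4 * exp (-(μ * |y|))) * C :=
        mul_le_mul hw (hC y) (abs_nonneg _) (by positivity)
    _ = 4 * C * exp (-(μ * |y|)) := by ring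

lemma negE {f : ℝ → ℝ} (hf : IsE f) : IsE (fun y => f (-y)) := by
  refine ⟨hf.1.comp contDiff_neg, fun k μ hμ => ?_⟩
  obtain ⟨C, hC⟩ := hf.2 k μ hμ
  refine ⟨C, fun y => ?_⟩
  rw [iteratedDeriv_comp_neg, smul_eq_mul, abs_mul, abs_pow, abs_neg, abs_one, one_pow, one_mul]
  have := hC (-y)
  rwa [abs_neg] at this

lemma intE {f : ℝ → ℝ} (hf : IsE f) : Integrable f := by
  obtain ⟨C, hC⟩ := hf.2 0 (1 / 2) (by norm_num)
  have hint : Integrable (fun x : ℝ => (8 * |C|) * (1 + x ^ 2)⁻¹) :=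
    integrable_inv_one_add_sq.const_mul _
  refine hint.mono' hf.1.continuous.aestronglyMeasurable (Filter.Eventually.of_forall fun y => ?_)
  have h1 := hC y
  rw [iteratedDeriv_zero] at h1
  rw [Real.norm_eq_abs]
  refine h1.trans ?_
  have h2 : exp (-(1 / 2 * |y|)) ≤ 8 * (1 + y ^ 2)⁻¹ := by
    rw [Real.exp_neg]
    have h3 : (1 + y ^ 2) / 8 ≤ exp (1 / 2 * |y|) := by
      have h4 := Real.quadratic_le_exp_of_nonneg (show 0 ≤ 1 / 2 * |y| by positivity)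
      have h5 : y ^ 2 = |y| ^ 2 := (sq_abs y).symm
      have h6 := abs_nonneg y
      rw [h5]
      nlinarith
    have h7 : (0 : ℝ) < (1 + y ^ 2) / 8 := by positivity
    calc (exp (1 / 2 * |y|))⁻¹ ≤ ((1 + y ^ 2) / 8)⁻¹ := inv_anti₀ h7 h3
      _ = 8 * (1 + y ^ 2)⁻¹ := by rw [inv_div, div_eq_mul_inv]
  calc C * exp (-(1 / 2 * |y|)) ≤ |C| * exp (-(1 / 2 * |y|)) :=
        mul_le_mul_of_nonneg_right (le_abs_self C) (exp_pos _).le
    _ ≤ |C| * (8 * (1 + y ^ 2)⁻¹) := mul_le_mul_of_nonneg_left h2 (abs_nonneg _)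
    _ = 8 * |C| * (1 + y ^ 2)⁻¹ := by ring

end Pool.Agent.Helper61.KV

namespace Pool.Agent.Helper41.KV

open Pool.Agent.Helper61.KV

theorem thm_ECL1 : S_ECL1 :=
  ⟨fun _ hf => E_W hf, fun _ hf => hf.1, fun _ _ hf hg => addE hf hg, fun _ _ hf hg => addW hf hg,
    fun _ _ hf hg => addP hf hg, fun _ _ hf hg => mulPE hf hg, fun _ _ hf hg => mulPW hf hg,
    fun _ _ hf hg => mulPP hf hg, fun _ hf => derE hf, fun _ hf => derW hf, fun _ hf => derP hf,
    polyP, thP, sechE, fun _ hf => negE hf, fun _ _ hf hg => intE (mulPE hf hg),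
    fun _ hf => intE hf⟩

end Pool.Agent.Helper41.KV
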