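import Pool.Agent.Helper61.KV.Th

/-!
# Packet KV-QF: elementary facts on the soliton profile
-/

set_option autoImplicit false

namespace Pool.Agent.Helper41.KV

open Real MeasureTheory Pool.Agent.Helper61.KV

lemma qbase_pos (y : ℝ) : 0 < 3 / (cosh (2 * y)) ^ 2 := by
  have := Real.cosh_pos (2 * y)
  positivity

lemma Q_pos (y : ℝ) : 0 < Q y := Real.rpow_pos_of_pos (qbase_pos y) _

lemma Q_pow4 (y : ℝ) : Q y ^ 4 = 3 / (cosh (2 * y)) ^ 2 := by
  unfold Q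
  rw [← Real.rpow_natCast, ← Real.rpow_mul (qbase_pos y).le]
  norm_num

lemma Q_hasDerivAt (y : ℝ) : HasDerivAt Q ((-1) * tanh (2 * y) * Q y) y := by
  have hc : cosh (2 * y) ≠ 0 := (Real.cosh_pos _).ne'
  have h1 : HasDerivAt (fun y : ℝ => 3 / (cosh (2 * y)) ^ 2)
      (-(3 * (2 * cosh (2 * y) * (2 * sinh (2 * y)))) / ((cosh (2 * y)) ^ 2) ^ 2) y := by
    have h := ((hasDerivAt_c y).pow 2)
    have h2 := (hasDerivAt_const y (3 : ℝ)).div h (pow_ne_zero 2 hc)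
    refine h2.congr_deriv ?_
    simp only [Nat.cast_ofNat, Nat.add_one_sub_one, pow_one, zero_mul, zero_sub, Pi.pow_apply]
  have h3 := h1.rpow_const (p := (1 : ℝ) / 4) (Or.inl (qbase_pos y).ne')
  have h4 : (fun y : ℝ => (3 / (cosh (2 * y)) ^ 2) ^ ((1 : ℝ) / 4)) = Q := rfl
  rw [h4] at h3
  refine h3.congr_deriv ?_
  rw [Real.rpow_sub_one (qbase_pos y).ne']
  have h5 : (3 / (cosh (2 * y)) ^ 2) ^ ((1 : ℝ) / 4) = Q y := rfl
  rw [h5, th_eq]
  field_simp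
  ring

lemma Q_contDiff : ContDiff ℝ (⊤ : ℕ∞) Q := by
  have h : ContDiff ℝ (⊤ : ℕ∞) (fun y : ℝ => 3 / (cosh (2 * y)) ^ 2) :=
    contDiff_const.div (contDiff_c.pow 2) (fun y => pow_ne_zero 2 (Real.cosh_pos _).ne')
  exact h.rpow_const_of_ne (fun y => (qbase_pos y).ne')

lemma Q_le (y : ℝ) : Q y ≤ 2 * exp (-|y|) := by
  have hc := Real.cosh_pos (2 * y)
  have h2 := le_cosh y
  have h4 : Q y ^ 4 ≤ (2 * exp (-|y|)) ^ 4 := by
    rw [Q_pow4, div_le_iff₀ (by positivity)]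
    have h5 : (exp (2 * |y|)) ^ 2 ≤ (2 * cosh (2 * y)) ^ 2 :=
      pow_le_pow_left₀ (exp_pos _).le h2 2
    have h6 : (2 * exp (-|y|)) ^ 4 * (exp (2 * |y|)) ^ 2 = 16 := by
      have : exp (-|y|) ^ 4 * (exp (2 * |y|)) ^ 2 = 1 := by
        rw [← Real.exp_nat_mul, ← Real.exp_nat_mul, ← Real.exp_add]
        rw [Real.exp_eq_one_iff]
        push_cast
        ring
      calc (2 * exp (-|y|)) ^ 4 * (exp (2 * |y|)) ^ 2
          = 16 * (exp (-|y|) ^ 4 * (exp (2 * |y|)) ^ 2) := by ring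
        _ = 16 := by rw [this]; ring
    have h7 : (2 * exp (-|y|)) ^ 4 * (exp (2 * |y|)) ^ 2
        ≤ (2 * exp (-|y|)) ^ 4 * (2 * cosh (2 * y)) ^ 2 :=
      mul_le_mul_of_nonneg_left h5 (by positivity)
    rw [h6] at h7
    nlinarith
  exact le_of_pow_le_pow_left₀ (by norm_num) (by positivity) h4

lemma le_Q (y : ℝ) : exp (-|y|) ≤ Q y := by
  have hc := Real.cosh_pos (2 * y)
  have h2 := cosh_le y
  have h4 : exp (-|y|) ^ 4 ≤ Q y ^ 4 := by
    rw [Q_pow4, le_div_iff₀ (by positivity)]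
    have h5 : (cosh (2 * y)) ^ 2 ≤ (exp (2 * |y|)) ^ 2 :=
      pow_le_pow_left₀ hc.le h2 2
    have h6 : exp (-|y|) ^ 4 * (exp (2 * |y|)) ^ 2 = 1 := by
      rw [← Real.exp_nat_mul, ← Real.exp_nat_mul, ← Real.exp_add]
      rw [Real.exp_eq_one_iff]
      push_cast
      ring
    have h7 : exp (-|y|) ^ 4 * (cosh (2 * y)) ^ 2 ≤ exp (-|y|) ^ 4 * (exp (2 * |y|)) ^ 2 :=
      mul_le_mul_of_nonneg_left h5 (by positivity)
    linarith
  exact le_of_pow_le_pow_left₀ (by norm_num) (Q_pos y).le h4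

theorem thm_QF : S_QF := by
  have hd : deriv Q = fun y => -(Q y * tanh (2 * y)) := by
    funext y
    rw [(Q_hasDerivAt y).deriv]
    ring
  refine ⟨Q_contDiff, Q_pos, ?_, Q_pow4, fun y => by rw [hd], ?_, ?_, le_Q⟩
  · intro y
    unfold Q
    rw [mul_neg, Real.cosh_neg]
  · intro y
    rw [hd]
    have h := ((Q_hasDerivAt y).mul (hasDerivAt_th y)).neg
    have h2 : (-(Q * fun y => tanh (2 * y))) = fun y => -(Q y * tanh (2 * y)) := rfl
    rw [h2] at h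
    rw [h.deriv]
    have h3 := Q_pow4 y
    have h4 := th_sq y
    have h5 : Q y ^ 5 = Q y * (3 / (cosh (2 * y)) ^ 2) := by rw [← h3]; ring
    rw [h5]
    have h6 : -(-1 * tanh (2 * y) * Q y * tanh (2 * y) + Q y * (2 * (1 - tanh (2 * y) ^ 2)))
      = Q y * (3 * tanh (2 * y) ^ 2 - 2) := by ring
    rw [h6, h4]
    ring
  · intro k
    obtain ⟨q, hq⟩ := gen Q (-1) Q_hasDerivAt k 1
    obtain ⟨C, hC0, hC⟩ := th_bdd q
    refine ⟨2 * C, fun y => ?_⟩
    have h1 := hq y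
    simp only [Polynomial.eval_one, mul_one] at h1
    have h2 : (fun y => Q y) = Q := rfl
    rw [h2] at h1
    rw [h1, abs_mul, abs_of_pos (Q_pos y)]
    calc Q y * |q.eval (tanh (2 * y))| ≤ (2 * exp (-|y|)) * C :=
          mul_le_mul (Q_le y) (hC y) (abs_nonneg _) (by positivity)
      _ = 2 * C * exp (-|y|) := by ring

end Pool.Agent.Helper41.KV
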