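import Pool.Agent.Helper33.KV.GoalsF

/-!
# Packet KV-F-CURVE: the reference curve
-/

set_option autoImplicit false

namespace Pool.Agent.Helper33.KV

open Real MeasureTheory Pool.Agent.Helper41.KV

theorem thm_CURVE : S_CURVE := by
  intro α hα0 hα1
  have hp : 0 < 4 * α + 3 := by linarith
  have hpos : ∀ t, 0 < t → 0 < sig α t ∧ 0 < lam α t ∧ 0 < rho α t := by
    intro t ht
    have h1 : 0 < sig α t := Real.rpow_pos_of_pos (mul_pos hp ht) _
    exact ⟨h1, Real.rpow_pos_of_pos h1 _, Real.rpow_pos_of_pos h1 _⟩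
  have hlam : ∀ t, 0 < t → lam α t = sig α t * rho α t := by
    intro t ht
    unfold lam rho
    rw [Real.rpow_add_one (hpos t ht).1.ne', mul_comm]
  have hsigp : ∀ t, 0 < t → sig α t ^ (4 * α + 3) = (4 * α + 3) * t := by
    intro t ht
    unfold sig
    rw [← Real.rpow_mul (mul_pos hp ht).le, one_div, inv_mul_cancel₀ hp.ne', Real.rpow_one]
  have hkey : ∀ t, 0 < t → lam α t ^ 2 * sig α t = (4 * α + 3) * t := by
    intro t ht
    obtain ⟨h1, h2, h3⟩ := hpos t ht
    rw [← hsigp t ht]
    have e1 : lam α t ^ 2 = sig α t ^ (4 * α + 2) := by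
      unfold lam
      rw [← Real.rpow_natCast, ← Real.rpow_mul h1.le]
      congr 1
      push_cast
      ring
    have e2 : 4 * α + 3 = (4 * α + 2) + 1 := by ring
    rw [e1, e2, Real.rpow_add_one h1.ne']
  have hder : ∀ t, 0 < t → HasDerivAt (sig α) (1 / lam α t ^ 2) t := by
    intro t ht
    obtain ⟨h1, h2, h3⟩ := hpos t ht
    have hpt : 0 < (4 * α + 3) * t := mul_pos hp ht
    have ha : HasDerivAt (fun t => (4 * α + 3) * t) (4 * α + 3) t := by
      simpa using (hasDerivAt_id t).const_mul (4 * α + 3)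
    have hb := ha.rpow_const (p := 1 / (4 * α + 3)) (Or.inl hpt.ne')
    have hc : (fun t => ((4 * α + 3) * t) ^ (1 / (4 * α + 3))) = sig α := rfl
    rw [hc] at hb
    refine hb.congr_deriv ?_
    rw [Real.rpow_sub_one hpt.ne']
    have hd : ((4 * α + 3) * t) ^ (1 / (4 * α + 3)) = sig α t := rfl
    rw [hd]
    have hk := hkey t ht
    rw [eq_div_iff (pow_pos h2 2).ne']
    rw [← hk]
    field_simp
  have hmono : ∀ s t, 0 < s → s ≤ t → sig α s ≤ sig α t := by
    intro s t hs hst
    exact Real.rpow_le_rpow (mul_pos hp hs).le (mul_le_mul_of_nonneg_left hst hp.le)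
      (by positivity)
  refine ⟨?_, ?_, ?_⟩
  · intro t ht
    obtain ⟨h1, h2, h3⟩ := hpos t ht
    have hk := hkey t ht
    have hl := hlam t ht
    refine ⟨h1, h2, h3, hl, ?_, hder t ht, ?_, ?_⟩
    · rw [← hk, div_eq_div_iff (pow_pos h2 3).ne' (by positivity)]
      calc rho α t * (lam α t ^ 2 * sig α t) = lam α t ^ 2 * (sig α t * rho α t) := by ring
        _ = lam α t ^ 2 * lam α t := by rw [← hl]
        _ = 1 * lam α t ^ 3 := by ring
    · have ha := (hder t ht).rpow_const (p := 2 * α + 1) (Or.inl h1.ne')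
      refine ha.congr_deriv ?_
      have e : 2 * α + 1 - 1 = 2 * α := by ring
      rw [e]
      unfold rho
      ring
    · have ha := (hder t ht).rpow_const (p := 2 * α) (Or.inl h1.ne')
      refine ha.congr_deriv ?_
      rw [Real.rpow_sub_one h1.ne']
      have hr : sig α t ^ (2 * α) = rho α t := rfl
      rw [hr]
      have e : lam α t ^ 3 = lam α t ^ 2 * (sig α t * rho α t) := by
        rw [← hl]; ring
      rw [e]
      field_simp
  · intro s t hs hst
    have h := hmono s t hs hst
    have h1 := (hpos s hs).1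
    exact ⟨h, Real.rpow_le_rpow h1.le h (by linarith), Real.rpow_le_rpow h1.le h (by linarith)⟩
  · intro ε hε
    set δ : ℝ := min ε (min (ε ^ (1 / (2 * α + 1))) (ε ^ (1 / (2 * α)))) with hδ
    have hδ0 : 0 < δ := by
      refine lt_min hε (lt_min (Real.rpow_pos_of_pos hε _) (Real.rpow_pos_of_pos hε _))
    refine ⟨δ ^ (4 * α + 3) / (4 * α + 3), by positivity, fun t ht htT => ?_⟩
    have h1 := (hpos t ht).1
    have hs : sig α t ≤ δ := by
      unfold sig
      have h2 : (4 * α + 3) * t ≤ δ ^ (4 * α + 3) := by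
        rw [le_div_iff₀ hp] at htT
        linarith
      calc ((4 * α + 3) * t) ^ (1 / (4 * α + 3)) ≤ (δ ^ (4 * α + 3)) ^ (1 / (4 * α + 3)) :=
            Real.rpow_le_rpow (mul_pos hp ht).le h2 (by positivity)
        _ = δ := by
            rw [← Real.rpow_mul hδ0.le, mul_one_div, div_self hp.ne', Real.rpow_one]
    have hδ1 : δ ≤ ε := min_le_left _ _
    have hδ2 : δ ≤ ε ^ (1 / (2 * α + 1)) := (min_le_right _ _).trans (min_le_left _ _)
    have hδ3 : δ ≤ ε ^ (1 / (2 * α)) := (min_le_right _ _).trans (min_le_right _ _)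
    refine ⟨hs.trans hδ1, ?_, ?_⟩
    · unfold lam
      calc sig α t ^ (2 * α + 1) ≤ (ε ^ (1 / (2 * α + 1))) ^ (2 * α + 1) :=
            Real.rpow_le_rpow h1.le (hs.trans hδ2) (by linarith)
        _ = ε := by
            rw [← Real.rpow_mul hε.le, one_div, inv_mul_cancel₀ (by linarith), Real.rpow_one]
    · unfold rho
      calc sig α t ^ (2 * α) ≤ (ε ^ (1 / (2 * α))) ^ (2 * α) :=
            Real.rpow_le_rpow h1.le (hs.trans hδ3) (by linarith)
        _ = ε := by
            rw [← Real.rpow_mul hε.le, one_div, inv_mul_cancel₀ (by linarith), Real.rpow_one]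

end Pool.Agent.Helper33.KV
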