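import Pool.Agent.Helper48.KV.DefsG
import Pool.Agent.Helper48.KV.GoalsG1

/-!
# Packet KV-G WT0: elementary facts on the logistic weight
-/

open MeasureTheory Set Filter Topology

noncomputable section

namespace Pool.Agent.Helper61.KV

open Pool.Agent.Helper33.KV Pool.Agent.Helper41.KV Pool.Agent.Helper48.KV

theorem wden_pos {K ρ : ℝ} (hρ : 0 < ρ) (y : ℝ) : 0 < 1 + ρ * Real.exp (-(y / K)) := by
  positivity

theorem wt_pos {K ρ : ℝ} (hρ : 0 < ρ) (y : ℝ) : 0 < wt K ρ y :=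
  div_pos one_pos (wden_pos hρ y)

theorem wt_one_sub {K ρ : ℝ} (hρ : 0 < ρ) (y : ℝ) :
    1 - wt K ρ y = ρ * Real.exp (-(y / K)) * wt K ρ y := by
  have h := wden_pos (K := K) hρ y
  rw [wt]
  field_simp
  ring

theorem wt_lt_one {K ρ : ℝ} (hρ : 0 < ρ) (y : ℝ) : wt K ρ y < 1 := by
  have h := wt_one_sub (K := K) hρ y
  have h2 : 0 < ρ * Real.exp (-(y / K)) * wt K ρ y :=
    mul_pos (mul_pos hρ (Real.exp_pos _)) (wt_pos hρ y)
  linarith

theorem wt_contDiff {K ρ : ℝ} (hρ : 0 < ρ) : ContDiff ℝ (⊤ : ℕ∞) (wt K ρ) := by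
  have h : ContDiff ℝ (⊤ : ℕ∞) (fun y : ℝ => 1 + ρ * Real.exp (-(y / K))) := by fun_prop
  exact contDiff_const.div h fun y => (wden_pos hρ y).ne'

theorem ph1_contDiff {K ρ : ℝ} (hρ : 0 < ρ) : ContDiff ℝ (⊤ : ℕ∞) (ph1 K ρ) := by
  have h := wt_contDiff (K := K) hρ
  exact (h.mul (contDiff_const.sub h)).div_const K

theorem wt_hasDeriv {K ρ : ℝ} (hρ : 0 < ρ) (y : ℝ) :
    HasDerivAt (wt K ρ) (ph1 K ρ y) y := by
  have h1 : HasDerivAt (fun y : ℝ => 1 + ρ * Real.exp (-(y / K)))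
      (ρ * (Real.exp (-(y / K)) * (-(1 / K)))) y :=
    (((hasDerivAt_id y).div_const K).neg.exp.const_mul ρ).const_add 1
  have h2 := (hasDerivAt_const y (1 : ℝ)).div h1 (wden_pos hρ y).ne'
  have h3 : (fun y : ℝ => 1 / (1 + ρ * Real.exp (-(y / K)))) = wt K ρ := rfl
  change HasDerivAt (wt K ρ) _ y at h2
  convert h2 using 1
  rw [ph1, wt_one_sub hρ y, wt]
  have h := wden_pos (K := K) hρ y
  field_simp
  ring

theorem ph1_hasDeriv {K ρ : ℝ} (hρ : 0 < ρ) (y : ℝ) :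
    HasDerivAt (ph1 K ρ) (ph2 K ρ y) y := by
  have h := wt_hasDeriv (K := K) hρ y
  have h2 := (h.mul (h.const_sub 1)).div_const K
  change HasDerivAt (ph1 K ρ) _ y at h2
  convert h2 using 1
  rw [ph2]
  ring

theorem ph2_hasDeriv {K ρ : ℝ} (hK : 0 < K) (hρ : 0 < ρ) (y : ℝ) :
    HasDerivAt (ph2 K ρ) (ph3 K ρ y) y := by
  have h := wt_hasDeriv (K := K) hρ y
  have h1 := ph1_hasDeriv (K := K) hρ y
  have h2 := (h1.mul ((h.const_mul 2).const_sub 1)).div_const K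
  change HasDerivAt (ph2 K ρ) _ y at h2
  convert h2 using 1
  rw [ph3, ph2, ph1]
  field_simp
  ring

theorem ph1_pos {K ρ : ℝ} (hK : 0 < K) (hρ : 0 < ρ) (y : ℝ) : 0 < ph1 K ρ y :=
  div_pos (mul_pos (wt_pos hρ y) (by have := wt_lt_one (K := K) hρ y; linarith)) hK

theorem ph1_le {K ρ : ℝ} (hK : 0 < K) (hρ : 0 < ρ) (y : ℝ) : ph1 K ρ y ≤ wt K ρ y / K := by
  rw [ph1]
  have h1 := wt_lt_one (K := K) hρ y
  have h2 := wt_pos (K := K) hρ y
  exact div_le_div_of_nonneg_right (by nlinarith) hK.le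

theorem ph2_abs {K ρ : ℝ} (hK : 0 < K) (hρ : 0 < ρ) (y : ℝ) :
    |ph2 K ρ y| ≤ ph1 K ρ y / K := by
  have h1 := wt_lt_one (K := K) hρ y
  have h2 := wt_pos (K := K) hρ y
  rw [ph2, abs_div, abs_of_pos hK, abs_mul, abs_of_pos (ph1_pos hK hρ y)]
  refine div_le_div_of_nonneg_right ?_ hK.le
  have h3 : |1 - 2 * wt K ρ y| ≤ 1 := by rw [abs_le]; constructor <;> linarith
  nlinarith [ph1_pos hK hρ y]

theorem ph3_abs {K ρ : ℝ} (hK : 0 < K) (hρ : 0 < ρ) (y : ℝ) :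
    |ph3 K ρ y| ≤ ph1 K ρ y / K ^ 2 := by
  have h1 := wt_lt_one (K := K) hρ y
  have h2 := wt_pos (K := K) hρ y
  rw [ph3, abs_div, abs_of_pos (pow_pos hK 2), abs_mul, abs_of_pos (ph1_pos hK hρ y)]
  refine div_le_div_of_nonneg_right ?_ (pow_pos hK 2).le
  have h3 : |1 - 6 * wt K ρ y + 6 * wt K ρ y ^ 2| ≤ 1 := by
    rw [abs_le]
    constructor
    · nlinarith [sq_nonneg (2 * wt K ρ y - 1)]
    · nlinarith
  nlinarith [ph1_pos hK hρ y]

/-- `ph1 ≤ ρ e^{-y/K} / K` -/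
theorem ph1_le_right {K ρ : ℝ} (hK : 0 < K) (hρ : 0 < ρ) (y : ℝ) :
    ph1 K ρ y ≤ ρ * Real.exp (-(y / K)) / K := by
  rw [ph1, wt_one_sub hρ y]
  refine div_le_div_of_nonneg_right ?_ hK.le
  have h1 := wt_lt_one (K := K) hρ y
  have h2 := wt_pos (K := K) hρ y
  have h3 : 0 < ρ * Real.exp (-(y / K)) := by positivity
  have h4 : wt K ρ y * wt K ρ y ≤ 1 := by nlinarith
  calc wt K ρ y * (ρ * Real.exp (-(y / K)) * wt K ρ y)
      = (ρ * Real.exp (-(y / K))) * (wt K ρ y * wt K ρ y) := by ring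
    _ ≤ (ρ * Real.exp (-(y / K))) * 1 := mul_le_mul_of_nonneg_left h4 h3.le
    _ = _ := mul_one _

/-- `ph1 ≤ e^{y/K} / (K ρ)` -/
theorem ph1_le_left {K ρ : ℝ} (hK : 0 < K) (hρ : 0 < ρ) (y : ℝ) :
    ph1 K ρ y ≤ Real.exp (y / K) / (K * ρ) := by
  refine (ph1_le hK hρ y).trans ?_
  have h3 : 0 < ρ * Real.exp (-(y / K)) := by positivity
  have h1 : wt K ρ y ≤ 1 / (ρ * Real.exp (-(y / K))) := by
    rw [wt]
    exact one_div_le_one_div_of_le h3 (by linarith)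
  have h2 : 1 / (ρ * Real.exp (-(y / K))) = Real.exp (y / K) / ρ := by
    rw [Real.exp_neg]
    field_simp
  rw [h2] at h1
  calc wt K ρ y / K ≤ (Real.exp (y / K) / ρ) / K := div_le_div_of_nonneg_right h1 hK.le
    _ = _ := by rw [div_div, mul_comm ρ K]

/-- Packet WT0 -/
theorem wt0 : S_WT0 := by
  intro K ρ hK hρ
  refine ⟨wt_contDiff hρ, ph1_contDiff hρ, fun y => ⟨wt_pos hρ y, wt_lt_one hρ y⟩,
    wt_one_sub hρ, wt_hasDeriv hρ, ph1_hasDeriv hρ, ph2_hasDeriv hK hρ,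
    fun y => ⟨ph1_pos hK hρ y, ph1_le hK hρ y, ph2_abs hK hρ y, ph3_abs hK hρ y⟩, ?_⟩
  intro hρ1 y
  rcases le_total 0 y with hy | hy
  · rw [abs_of_nonneg hy]
    refine (ph1_le_right hK hρ y).trans ?_
    have h1 := Real.exp_pos (-(y / K))
    rw [div_le_div_iff₀ hK (by positivity)]
    have h2 : ρ * ρ ≤ 1 := by nlinarith
    calc ρ * Real.exp (-(y / K)) * (K * ρ) = (ρ * ρ) * (Real.exp (-(y / K)) * K) := by ring
      _ ≤ 1 * (Real.exp (-(y / K)) * K) := mul_le_mul_of_nonneg_right h2 (by positivity)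
      _ = _ := one_mul _
  · rw [abs_of_nonpos hy]
    have h := ph1_le_left hK hρ y
    rwa [show -(-y / K) = y / K by ring]

end Pool.Agent.Helper61.KV
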