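import Pool.Agent.Helper61.KV.WT0

/-!
# Packet KV-G WTF: the weights of the right functional are admissible fields
-/

open MeasureTheory Set Filter Topology

noncomputable section

namespace Pool.Agent.Helper61.KV

open Pool.Agent.Helper33.KV Pool.Agent.Helper41.KV Pool.Agent.Helper48.KV

theorem sig_pos {α t : ℝ} (hα : 0 < α) (ht : 0 < t) : 0 < sig α t :=
  Real.rpow_pos_of_pos (by positivity) _

theorem lam_pos {α t : ℝ} (hα : 0 < α) (ht : 0 < t) : 0 < lam α t :=
  Real.rpow_pos_of_pos (sig_pos hα ht) _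

theorem rho_pos {α t : ℝ} (hα : 0 < α) (ht : 0 < t) : 0 < rho α t :=
  Real.rpow_pos_of_pos (sig_pos hα ht) _

theorem sig_hasDeriv {α t : ℝ} (hα : 0 < α) (ht : 0 < t) :
    HasDerivAt (sig α) (1 / lam α t ^ 2) t := by
  have hc : 0 < 4 * α + 3 := by linarith
  have hct : 0 < (4 * α + 3) * t := by positivity
  have h1 : HasDerivAt (fun s : ℝ => (4 * α + 3) * s) (4 * α + 3) t := by
    simpa using (hasDerivAt_id t).const_mul (4 * α + 3)
  have h2 := h1.rpow_const (p := 1 / (4 * α + 3)) (Or.inl hct.ne')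
  change HasDerivAt (sig α) _ t at h2
  convert h2 using 1
  have h3 : lam α t ^ 2 = ((4 * α + 3) * t) ^ (1 / (4 * α + 3) * (2 * α + 1) * 2) := by
    rw [lam, sig, ← Real.rpow_natCast, ← Real.rpow_mul hct.le, ← Real.rpow_mul hct.le]
    norm_num
  rw [h3, one_div, ← Real.rpow_neg hct.le]
  have h4 : (4 * α + 3) * (1 / (4 * α + 3)) = 1 := by field_simp
  rw [h4, one_mul]
  congr 1
  field_simp
  ring

theorem lam_hasDeriv {α t : ℝ} (hα : 0 < α) (ht : 0 < t) :
    HasDerivAt (lam α) ((2 * α + 1) * rho α t / lam α t ^ 2) t := by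
  have h2 := (sig_hasDeriv hα ht).rpow_const (p := 2 * α + 1) (Or.inl (sig_pos hα ht).ne')
  change HasDerivAt (lam α) _ t at h2
  convert h2 using 1
  rw [rho, add_sub_cancel_right]
  ring

theorem rho_hasDeriv {α t : ℝ} (hα : 0 < α) (ht : 0 < t) :
    HasDerivAt (rho α) (2 * α * rho α t ^ 2 / lam α t ^ 3) t := by
  have h2 := (sig_hasDeriv hα ht).rpow_const (p := 2 * α) (Or.inl (sig_pos hα ht).ne')
  change HasDerivAt (rho α) _ t at h2
  convert h2 using 1
  have hs := sig_pos hα ht
  have h3 : sig α t ^ (2 * α - 1) * lam α t = rho α t ^ 2 := by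
    rw [lam, rho, ← Real.rpow_add hs, ← Real.rpow_natCast, ← Real.rpow_mul hs.le]
    congr 1
    push_cast
    ring
  rw [← h3]
  have hl := lam_pos hα ht
  field_simp

theorem Yt_hasDeriv {α t : ℝ} (hα : 0 < α) (ht : 0 < t) (x : ℝ) :
    HasDerivAt (fun s => (x - sig α s) / lam α s)
      (-(1 / lam α t ^ 3 * (1 + (2 * α + 1) * rho α t * ((x - sig α t) / lam α t)))) t := by
  have hl := lam_pos hα ht
  have h := ((sig_hasDeriv hα ht).const_sub x).div (lam_hasDeriv hα ht) hl.ne'
  refine HasDerivAt.congr_deriv h ?_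
  field_simp
  ring

theorem pW_hasDeriv {α K t : ℝ} (hα : 0 < α) (hK : 0 < K) (ht : 0 < t) (x : ℝ) :
    HasDerivAt (fun s => pW α K s x) (pWt α K t x) t := by
  have hl := lam_pos hα ht
  have hr := rho_pos hα ht
  have hY := Yt_hasDeriv hα ht x
  have hD : HasDerivAt
      (fun s => 1 + rho α s * Real.exp (-((x - sig α s) / lam α s / K)))
      (2 * α * rho α t ^ 2 / lam α t ^ 3 * Real.exp (-((x - sig α t) / lam α t / K)) +
        rho α t * (Real.exp (-((x - sig α t) / lam α t / K)) *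
          -(-(1 / lam α t ^ 3 * (1 + (2 * α + 1) * rho α t *
            ((x - sig α t) / lam α t))) / K))) t :=
    ((rho_hasDeriv hα ht).mul (hY.div_const K).neg.exp).const_add 1
  have hD0 := wden_pos (K := K) hr ((x - sig α t) / lam α t)
  have h := (hasDerivAt_const t (1 : ℝ)).div hD hD0.ne'
  refine HasDerivAt.congr_deriv h ?_
  rw [pWt, ph1, wt_one_sub hr, wt]
  generalize (x - sig α t) / lam α t = Y at hD0 ⊢
  generalize Real.exp (-(Y / K)) = ee at hD0 ⊢
  field_simp
  ring

/-- polynomials with `iteratedDeriv k (pW t) x = (PP k).eval (wt y) / λ^k` -/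
def PP (K : ℝ) : ℕ → Polynomial ℝ
  | 0 => Polynomial.X
  | k + 1 => Polynomial.C (1 / K) * (Polynomial.derivative (PP K k) *
      (Polynomial.X * (1 - Polynomial.X)))

theorem poly_hasDeriv {K ρ : ℝ} (hρ : 0 < ρ) (s l : ℝ) (k : ℕ) (x : ℝ) :
    HasDerivAt (fun x => (PP K k).eval (wt K ρ ((x - s) / l)) / l ^ k)
      ((PP K (k + 1)).eval (wt K ρ ((x - s) / l)) / l ^ (k + 1)) x := by
  have h1 : HasDerivAt (fun x : ℝ => (x - s) / l) (1 / l) x :=
    ((hasDerivAt_id x).sub_const s).div_const l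
  have h2 := (wt_hasDeriv (K := K) hρ ((x - s) / l)).comp x h1
  have h3 := (((PP K k).hasDerivAt (wt K ρ ((x - s) / l))).comp x h2).div_const (l ^ k)
  refine HasDerivAt.congr_deriv h3 ?_
  rw [PP, Polynomial.eval_mul, Polynomial.eval_mul, Polynomial.eval_mul, Polynomial.eval_C,
    Polynomial.eval_sub, Polynomial.eval_X, Polynomial.eval_one, ph1, pow_succ,
    div_mul_eq_div_div_swap]
  ring

theorem iter_pW {α K t : ℝ} (hα : 0 < α) (ht : 0 < t) (k : ℕ) :
    iteratedDeriv k (pW α K t) = fun x =>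
      (PP K k).eval (wt K (rho α t) ((x - sig α t) / lam α t)) / lam α t ^ k := by
  induction k with
  | zero =>
    rw [iteratedDeriv_zero]
    funext x
    simp [PP, pW]
  | succ k ih =>
    rw [iteratedDeriv_succ, ih]
    funext x
    exact (poly_hasDeriv (rho_pos hα ht) _ _ k x).deriv

theorem sig_cont {α t1 t2 : ℝ} (hα : 0 < α) (h1 : 0 < t1) : ContinuousOn (sig α) (Icc t1 t2) :=
  fun _ ht => (sig_hasDeriv hα (h1.trans_le ht.1)).continuousAt.continuousWithinAt

theorem lam_cont {α t1 t2 : ℝ} (hα : 0 < α) (h1 : 0 < t1) : ContinuousOn (lam α) (Icc t1 t2) :=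
  fun _ ht => (lam_hasDeriv hα (h1.trans_le ht.1)).continuousAt.continuousWithinAt

theorem rho_cont {α t1 t2 : ℝ} (hα : 0 < α) (h1 : 0 < t1) : ContinuousOn (rho α) (Icc t1 t2) :=
  fun _ ht => (rho_hasDeriv hα (h1.trans_le ht.1)).continuousAt.continuousWithinAt

theorem fst_cont {f : ℝ → ℝ} {s : Set ℝ} (h : ContinuousOn f s) :
    ContinuousOn (fun z : ℝ × ℝ => f z.1) (s ×ˢ univ) :=
  h.comp continuousOn_fst fun _ hz => hz.1

theorem Y_cont {α t1 t2 : ℝ} (hα : 0 < α) (h1 : 0 < t1) :
    ContinuousOn (fun z : ℝ × ℝ => (z.2 - sig α z.1) / lam α z.1) (Icc t1 t2 ×ˢ univ) :=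
  (continuousOn_snd.sub (fst_cont (sig_cont hα h1))).div (fst_cont (lam_cont hα h1))
    fun _ hz => (lam_pos hα (h1.trans_le hz.1.1)).ne'

theorem wtY_cont {α K t1 t2 : ℝ} (hα : 0 < α) (h1 : 0 < t1) :
    ContinuousOn (fun z : ℝ × ℝ => wt K (rho α z.1) ((z.2 - sig α z.1) / lam α z.1))
      (Icc t1 t2 ×ˢ univ) := by
  have hY := Y_cont (t2 := t2) hα h1
  have hr := fst_cont (rho_cont (t2 := t2) hα h1)
  refine continuousOn_const.div (continuousOn_const.add (hr.mul ?_)) fun z hz =>
    (wden_pos (rho_pos hα (h1.trans_le hz.1.1)) _).ne'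
  exact Real.continuous_exp.comp_continuousOn (hY.div_const K).neg

/-- bounds on `[0,1]` of a polynomial -/
theorem poly_bdd (p : Polynomial ℝ) : ∃ C, 0 ≤ C ∧ ∀ w, 0 < w → w < 1 → |p.eval w| ≤ C := by
  obtain ⟨C, hC⟩ := (isCompact_Icc (a := (0 : ℝ)) (b := 1)).exists_bound_of_continuousOn
    p.continuous.continuousOn
  refine ⟨max C 0, le_max_right _ _, fun w h0 h1 => ?_⟩
  have := hC w ⟨h0.le, h1.le⟩
  rw [Real.norm_eq_abs] at this
  exact this.trans (le_max_left _ _)

theorem abs_mul_ph1 {K ρ : ℝ} (hK : 0 < K) (hρ : 0 < ρ) (y : ℝ) :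
    |y| * ph1 K ρ y ≤ ρ + 1 / ρ := by
  have hp := ph1_pos hK hρ y
  have hr : 0 < 1 / ρ := by positivity
  have h1 : ph1 K ρ y ≤ (ρ + 1 / ρ) * (Real.exp (-(|y| / K)) / K) := by
    rcases le_total 0 y with hy | hy
    · rw [abs_of_nonneg hy]
      refine (ph1_le_right hK hρ y).trans ?_
      rw [mul_div_assoc]
      exact mul_le_mul_of_nonneg_right (by linarith) (by positivity)
    · rw [abs_of_nonpos hy, show -(-y / K) = y / K by ring]
      refine (ph1_le_left hK hρ y).trans ?_
      calc Real.exp (y / K) / (K * ρ) = (1 / ρ) * (Real.exp (y / K) / K) := by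
            field_simp
        _ ≤ _ := mul_le_mul_of_nonneg_right (by linarith) (by positivity)
  have h2 : |y| * (Real.exp (-(|y| / K)) / K) ≤ 1 := by
    have h3 : |y| / K ≤ Real.exp (|y| / K) := by
      have := Real.add_one_le_exp (|y| / K)
      linarith
    rw [Real.exp_neg]
    have h4 := Real.exp_pos (|y| / K)
    calc |y| * ((Real.exp (|y| / K))⁻¹ / K) = (|y| / K) * (Real.exp (|y| / K))⁻¹ := by ring
      _ ≤ Real.exp (|y| / K) * (Real.exp (|y| / K))⁻¹ :=
          mul_le_mul_of_nonneg_right h3 (by positivity)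
      _ = 1 := mul_inv_cancel₀ h4.ne'
  calc |y| * ph1 K ρ y ≤ |y| * ((ρ + 1 / ρ) * (Real.exp (-(|y| / K)) / K)) :=
        mul_le_mul_of_nonneg_left h1 (abs_nonneg y)
    _ = (ρ + 1 / ρ) * (|y| * (Real.exp (-(|y| / K)) / K)) := by ring
    _ ≤ (ρ + 1 / ρ) * 1 := mul_le_mul_of_nonneg_left h2 (by positivity)
    _ = _ := mul_one _

theorem BInf_pW {α K t1 t2 : ℝ} (hα : 0 < α) (hK : 1 ≤ K) (h1 : 0 < t1) :
    BInf (pW α K) (pWt α K) t1 t2 := by
  have hK0 : 0 < K := by linarith
  have hl : ContinuousOn (lam α) (Icc t1 t2) := lam_cont hα h1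
  have hr : ContinuousOn (rho α) (Icc t1 t2) := rho_cont hα h1
  refine ⟨?_, ?_, ?_, ?_, ?_, ?_⟩
  · intro t ht
    have h0 : 0 < t := h1.trans_le ht.1
    have h2 : ContDiff ℝ (⊤ : ℕ∞) (fun x : ℝ => (x - sig α t) / lam α t) := by fun_prop
    exact (wt_contDiff (rho_pos hα h0)).comp h2
  · intro k
    have h2 : ContinuousOn (fun z : ℝ × ℝ =>
        (PP K k).eval (wt K (rho α z.1) ((z.2 - sig α z.1) / lam α z.1)) / lam α z.1 ^ k)
        (Icc t1 t2 ×ˢ univ) := by
      refine ContinuousOn.div ((PP K k).continuous.comp_continuousOn (wtY_cont hα h1))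
        ((fst_cont hl).pow k) fun z hz => ?_
      exact (pow_pos (lam_pos hα (h1.trans_le hz.1.1)) k).ne'
    refine h2.congr fun z hz => ?_
    rw [iter_pW hα (h1.trans_le hz.1.1)]
  · intro k
    obtain ⟨C, hC0, hC⟩ := poly_bdd (PP K k)
    have h2 : ContinuousOn (fun t => (1 : ℝ) / lam α t ^ k) (Icc t1 t2) :=
      continuousOn_const.div (hl.pow k) fun t ht => (pow_pos (lam_pos hα (h1.trans_le ht.1)) k).ne'
    obtain ⟨C', hC'⟩ := isCompact_Icc.exists_bound_of_continuousOn h2
    refine ⟨C * C', fun t ht x => ?_⟩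
    have h0 : 0 < t := h1.trans_le ht.1
    have hlp := pow_pos (lam_pos hα h0) k
    have h3 := hC' t ht
    rw [Real.norm_eq_abs, abs_of_pos (by positivity)] at h3
    have h4 := hC _ (wt_pos (K := K) (rho_pos hα h0) ((x - sig α t) / lam α t))
      (wt_lt_one (rho_pos hα h0) _)
    rw [iter_pW hα h0]
    simp only
    rw [abs_div, abs_of_pos hlp, div_eq_mul_one_div]
    exact mul_le_mul h4 h3 (by positivity) hC0
  · intro t ht x
    exact (pW_hasDeriv hα hK0 (h1.trans_le ht.1) x).hasDerivWithinAt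
  · have hw := wtY_cont (K := K) (t2 := t2) hα h1
    have hY := Y_cont (t2 := t2) hα h1
    have hr' := fst_cont hr
    have hl' := fst_cont hl
    have hph : ContinuousOn (fun z : ℝ × ℝ => ph1 K (rho α z.1) ((z.2 - sig α z.1) / lam α z.1))
        (Icc t1 t2 ×ˢ univ) := (hw.mul (continuousOn_const.sub hw)).div_const K
    have h3 : ContinuousOn (fun z : ℝ × ℝ =>
        -(ph1 K (rho α z.1) ((z.2 - sig α z.1) / lam α z.1) / lam α z.1 ^ 3 *
          (1 + (2 * α + 1) * rho α z.1 * ((z.2 - sig α z.1) / lam α z.1)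
            + 2 * α * K * rho α z.1))) (Icc t1 t2 ×ˢ univ) := by
      refine ((hph.div (hl'.pow 3) fun z hz => ?_).mul
        ((continuousOn_const.add ((continuousOn_const.mul hr').mul hY)).add
          (continuousOn_const.mul hr'))).neg
      exact (pow_pos (lam_pos hα (h1.trans_le hz.1.1)) 3).ne'
    exact h3
  · have h2 : ContinuousOn (fun t => (1 : ℝ) / lam α t ^ 3 *
        (1 + (2 * α + 1) * rho α t * (rho α t + 1 / rho α t) + 2 * α * K * rho α t))
        (Icc t1 t2) := by
      refine (continuousOn_const.div (hl.pow 3) fun t ht =>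
        (pow_pos (lam_pos hα (h1.trans_le ht.1)) 3).ne').mul
          ((continuousOn_const.add ((continuousOn_const.mul hr).mul
            (hr.add (continuousOn_const.div hr fun t ht => ?_)))).add (continuousOn_const.mul hr))
      exact (rho_pos hα (h1.trans_le ht.1)).ne'
    obtain ⟨C, hC⟩ := isCompact_Icc.exists_bound_of_continuousOn h2
    refine ⟨C, fun t ht x => ?_⟩
    have h0 : 0 < t := h1.trans_le ht.1
    have hl0 := lam_pos hα h0
    have hr0 := rho_pos hα h0
    refine le_trans ?_ ((le_abs_self _).trans (hC t ht))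
    set y := (x - sig α t) / lam α t with hy
    have hp := ph1_pos hK0 hr0 y
    have hp1 : ph1 K (rho α t) y ≤ 1 := by
      refine (ph1_le hK0 hr0 y).trans ?_
      rw [div_le_one hK0]
      exact (wt_lt_one hr0 y).le.trans hK
    have hp2 := abs_mul_ph1 hK0 hr0 y
    have h5 : |1 + (2 * α + 1) * rho α t * y + 2 * α * K * rho α t| ≤
        1 + (2 * α + 1) * rho α t * |y| + 2 * α * K * rho α t := by
      refine (abs_add_le _ _).trans (add_le_add ((abs_add_le _ _).trans (add_le_add ?_ ?_)) ?_)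
      · rw [abs_one]
      · rw [abs_mul, abs_of_pos (by positivity : 0 < (2 * α + 1) * rho α t)]
      · rw [abs_of_pos (by positivity : 0 < 2 * α * K * rho α t)]
    have h6 : pWt α K t x = -(ph1 K (rho α t) y / lam α t ^ 3 *
      (1 + (2 * α + 1) * rho α t * y + 2 * α * K * rho α t)) := rfl
    rw [h6, abs_neg, abs_mul, abs_of_pos (by positivity : 0 < ph1 K (rho α t) y / lam α t ^ 3)]
    calc ph1 K (rho α t) y / lam α t ^ 3 * |1 + (2 * α + 1) * rho α t * y + 2 * α * K * rho α t|
        ≤ ph1 K (rho α t) y / lam α t ^ 3 *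
          (1 + (2 * α + 1) * rho α t * |y| + 2 * α * K * rho α t) :=
          mul_le_mul_of_nonneg_left h5 (by positivity)
      _ = 1 / lam α t ^ 3 * (ph1 K (rho α t) y * 1
          + (2 * α + 1) * rho α t * (|y| * ph1 K (rho α t) y)
          + 2 * α * K * rho α t * ph1 K (rho α t) y) := by ring
      _ ≤ 1 / lam α t ^ 3 * (1 * 1
          + (2 * α + 1) * rho α t * (rho α t + 1 / rho α t)
          + 2 * α * K * rho α t * 1) := by
          refine mul_le_mul_of_nonneg_left ?_ (by positivity)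
          have e1 : (2 * α + 1) * rho α t * (|y| * ph1 K (rho α t) y) ≤
              (2 * α + 1) * rho α t * (rho α t + 1 / rho α t) :=
            mul_le_mul_of_nonneg_left hp2 (by positivity)
          have e2 : 2 * α * K * rho α t * ph1 K (rho α t) y ≤ 2 * α * K * rho α t * 1 :=
            mul_le_mul_of_nonneg_left hp1 (by positivity)
          linarith
      _ = _ := by ring

/-- multiplication of a field by a function of time -/
theorem BInf_mul {p pt q qt : ℝ → ℝ → ℝ} {c c' : ℝ → ℝ} {t1 t2 : ℝ} (h : BInf p pt t1 t2)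
    (hc : ∀ t ∈ Icc t1 t2, HasDerivWithinAt c (c' t) (Icc t1 t2) t)
    (hc' : ContinuousOn c' (Icc t1 t2))
    (hq : ∀ t ∈ Icc t1 t2, ∀ x, q t x = c t * p t x)
    (hqt : ∀ t ∈ Icc t1 t2, ∀ x, qt t x = c t * pt t x + c' t * p t x) :
    BInf q qt t1 t2 := by
  have hcc : ContinuousOn c (Icc t1 t2) := fun t ht => (hc t ht).continuousWithinAt
  have hq' : ∀ t ∈ Icc t1 t2, q t = fun x => c t * p t x := fun t ht => funext (hq t ht)
  have hit : ∀ k, ∀ t ∈ Icc t1 t2, ∀ x, iteratedDeriv k (q t) x = c t * iteratedDeriv k (p t) x := by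
    intro k t ht x
    rw [hq' t ht]
    exact iteratedDeriv_const_mul_field (c t) (p t)
  obtain ⟨C0, hC0⟩ := isCompact_Icc.exists_bound_of_continuousOn hcc
  obtain ⟨C1, hC1⟩ := isCompact_Icc.exists_bound_of_continuousOn hc'
  refine ⟨?_, ?_, ?_, ?_, ?_, ?_⟩
  · intro t ht
    rw [hq' t ht]
    exact contDiff_const.mul (h.smooth t ht)
  · intro k
    exact ((fst_cont hcc).mul (h.cont k)).congr fun z hz => hit k z.1 hz.1 z.2
  · intro k
    obtain ⟨C, hC⟩ := h.bound k
    refine ⟨C0 * C, fun t ht x => ?_⟩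
    rw [hit k t ht x, abs_mul]
    exact mul_le_mul (hC0 t ht) (hC t ht x) (abs_nonneg _) ((norm_nonneg _).trans (hC0 t ht))
  · intro t ht x
    have h1 := (hc t ht).mul (h.dt t ht x)
    rw [hqt t ht x, show c t * pt t x + c' t * p t x = c' t * p t x + c t * pt t x by ring]
    exact h1.congr (fun s hs => hq s hs x) (hq t ht x)
  · refine (((fst_cont hcc).mul h.contt).add ((fst_cont hc').mul ?_)).congr
      fun z hz => hqt z.1 hz.1 z.2
    have := h.cont 0
    simpa using this
  · obtain ⟨C, hC⟩ := h.boundt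
    obtain ⟨C', hC'⟩ := h.bound 0
    refine ⟨C0 * C + C1 * C', fun t ht x => ?_⟩
    rw [hqt t ht x]
    refine (abs_add_le _ _).trans (add_le_add ?_ ?_)
    · rw [abs_mul]
      exact mul_le_mul (hC0 t ht) (hC t ht x) (abs_nonneg _) ((norm_nonneg _).trans (hC0 t ht))
    · rw [abs_mul]
      have := hC' t ht x
      rw [iteratedDeriv_zero] at this
      exact mul_le_mul (hC1 t ht) this (abs_nonneg _) ((norm_nonneg _).trans (hC1 t ht))

/-- Packet WTF -/
theorem wtf (_h : S_WT0) : S_WTF := by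
  intro α hα hα1 K hK t1 t2 h1 h12
  have hK0 : 0 < K := by linarith
  refine ⟨fun t ht => ⟨sig_hasDeriv hα ht, lam_hasDeriv hα ht, rho_hasDeriv hα ht⟩,
    BInf_pW hα hK h1, ?_, ?_⟩
  · refine BInf_mul (c := fun t => lam α t ^ 2)
      (c' := fun t => 2 * ((2 * α + 1) * rho α t) / lam α t) (BInf_pW hα hK h1)
      (fun t ht => ?_) ?_ (fun t ht x => rfl) (fun t ht x => ?_)
    · have h0 := h1.trans_le ht.1
      have hl := lam_pos hα h0
      have h2 := ((lam_hasDeriv hα h0).pow 2).hasDerivWithinAt (s := Icc t1 t2)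
      refine HasDerivWithinAt.congr_deriv h2 ?_
      norm_num
      field_simp
    · refine (continuousOn_const.mul (continuousOn_const.mul (rho_cont hα h1))).div
        (lam_cont hα h1) fun t ht => (lam_pos hα (h1.trans_le ht.1)).ne'
    · have h0 := h1.trans_le ht.1
      have hl := lam_pos hα h0
      rw [qWt]
      field_simp
  · intro t ht x
    have h0 := h1.trans_le ht.1
    have hl := lam_pos hα h0
    have hr := rho_pos hα h0
    have hY : ∀ x, HasDerivAt (fun x : ℝ => (x - sig α t) / lam α t) (1 / lam α t) x := fun x =>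
      ((hasDerivAt_id x).sub_const (sig α t)).div_const (lam α t)
    have e1 : deriv (pW α K t) = fun x =>
        ph1 K (rho α t) ((x - sig α t) / lam α t) / lam α t := by
      funext x
      have h2 := (wt_hasDeriv (K := K) hr ((x - sig α t) / lam α t)).comp x (hY x)
      rw [← mul_one_div]
      exact h2.deriv
    have e2 : iteratedDeriv 2 (pW α K t) = fun x =>
        ph2 K (rho α t) ((x - sig α t) / lam α t) / lam α t ^ 2 := by
      rw [iteratedDeriv_succ, iteratedDeriv_one, e1]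
      funext x
      have h2 := ((ph1_hasDeriv (K := K) hr ((x - sig α t) / lam α t)).comp x
        (hY x)).div_const (lam α t)
      rw [show ph2 K (rho α t) ((x - sig α t) / lam α t) / lam α t ^ 2 =
        ph2 K (rho α t) ((x - sig α t) / lam α t) * (1 / lam α t) / lam α t by
          field_simp]
      exact h2.deriv
    have e3 : iteratedDeriv 3 (pW α K t) = fun x =>
        ph3 K (rho α t) ((x - sig α t) / lam α t) / lam α t ^ 3 := by
      rw [iteratedDeriv_succ, e2]
      funext x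
      have h2 := ((ph2_hasDeriv (K := K) hK0 hr ((x - sig α t) / lam α t)).comp x
        (hY x)).div_const (lam α t ^ 2)
      rw [show ph3 K (rho α t) ((x - sig α t) / lam α t) / lam α t ^ 3 =
        ph3 K (rho α t) ((x - sig α t) / lam α t) * (1 / lam α t) / lam α t ^ 2 by
          field_simp]
      exact h2.deriv
    rw [e1, e2, e3]
    exact ⟨rfl, rfl, rfl⟩

end Pool.Agent.Helper61.KV
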