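import Pool.Agent.Helper41.KV.GoalsD
import Pool.Agent.Helper55.KV.FZ

/-!
# Packet KV-FZ2: sharp size of the initial right field
-/

namespace Pool.Agent.Helper41.KV

open Real MeasureTheory Pool.Agent.Helper33.KV

theorem fz2_term {α k : ℝ} (p : ℕ → Polynomial ℝ) (hα : 0 < α) (hp : p 0 = Polynomial.C k)
    (j : ℕ) : ∃ C : ℝ, 0 ≤ C ∧ ∀ x : ℝ, 0 < x → x ≤ 1 →
      |(x ^ (2 * α)) ^ j * (p j).eval (Real.log x)| ≤ C := by
  rcases Nat.eq_zero_or_pos j with rfl | hj
  · refine ⟨|k|, abs_nonneg k, fun x _ _ => ?_⟩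
    rw [hp, pow_zero, one_mul, Polynomial.eval_C]
  · have hj' : (0 : ℝ) < j := by exact_mod_cast hj
    have hδ : 0 < 2 * α * j := by positivity
    have h1 := fun b : ℕ => FZAux.log_bound b hδ
    choose C hC0 hC using h1
    refine ⟨∑ b ∈ Finset.range ((p j).natDegree + 1), |(p j).coeff b| * C b,
      Finset.sum_nonneg fun b _ => mul_nonneg (abs_nonneg _) (hC0 b), fun x hx hx1 => ?_⟩
    rw [Polynomial.eval_eq_sum_range, Finset.mul_sum]
    refine (Finset.abs_sum_le_sum_abs _ _).trans (Finset.sum_le_sum fun b _ => ?_)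
    have h2 : (x ^ (2 * α)) ^ j = x ^ (2 * α * j) := by
      rw [Real.rpow_mul hx.le (2 * α) j, Real.rpow_natCast]
    rw [h2, abs_mul, abs_mul, abs_pow, abs_of_pos (Real.rpow_pos_of_pos hx _)]
    calc x ^ (2 * α * j) * (|(p j).coeff b| * |Real.log x| ^ b)
        = |(p j).coeff b| * (x ^ (2 * α * j) * |Real.log x| ^ b) := by ring
      _ ≤ |(p j).coeff b| * C b := mul_le_mul_of_nonneg_left (hC b x hx hx1) (abs_nonneg _)

theorem thm_FZ2 : S_FZ2 := by
  intro α k p J hα _ hp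
  have h1 := fun j : ℕ => fz2_term p hα hp j
  choose C hC0 hC using h1
  refine ⟨∑ j ∈ Finset.range J, C j, fun x hx => ?_⟩
  have hC' : 0 ≤ ∑ j ∈ Finset.range J, C j := Finset.sum_nonneg fun j _ => hC0 j
  have hxp : 0 < x ^ (α - 1/2) := Real.rpow_pos_of_pos hx _
  unfold fZero
  rw [if_pos hx, FZAux.eval_gZero]
  rcases le_total 1 x with h | h
  · rw [Real.smoothTransition.zero_of_nonpos (by linarith), zero_mul, abs_zero]
    positivity
  · have h2 : |∑ j ∈ Finset.range J, (x ^ (2 * α)) ^ j * (p j).eval (Real.log x)| ≤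
        ∑ j ∈ Finset.range J, C j :=
      (Finset.abs_sum_le_sum_abs _ _).trans (Finset.sum_le_sum fun j _ => hC j x hx h)
    have h3 : |Real.smoothTransition (2 - 2 * x)| ≤ 1 := by
      rw [abs_of_nonneg (Real.smoothTransition.nonneg _)]
      exact Real.smoothTransition.le_one _
    rw [abs_mul, abs_mul, abs_of_pos hxp]
    calc |Real.smoothTransition (2 - 2 * x)| * (x ^ (α - 1/2) *
          |∑ j ∈ Finset.range J, (x ^ (2 * α)) ^ j * (p j).eval (Real.log x)|)
        ≤ 1 * (x ^ (α - 1/2) * ∑ j ∈ Finset.range J, C j) :=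
          mul_le_mul h3 (mul_le_mul_of_nonneg_left h2 hxp.le) (by positivity) zero_le_one
      _ = _ := by ring

end Pool.Agent.Helper41.KV
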