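import Pool.Agent.Helper41.KV.GoalsD
import Pool.Agent.Helper49.KV.PAIR
import Pool.Agent.Helper38.KV.PR

/-!
# Packet KV-ZV: the profiles have the properties required by section F
-/

namespace Pool.Agent.Helper41.KV

open Real MeasureTheory Filter Topology Pool.Agent.Helper33.KV

theorem zv_IQ (hQ : S_QF) (hE : S_ECL1) : 0 < IQ := by
  unfold IQ
  have hi : Integrable Q := pr_intE hE (pr_Q hQ)
  rw [integral_pos_iff_support_of_nonneg (fun y => (hQ.2.1 y).le) hi]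
  have : Function.support Q = Set.univ := by
    ext y
    simp [(hQ.2.1 y).ne']
  rw [this]
  simp

theorem zv_form {α : ℝ} (hα : 0 < α) (hI : 0 < IQ) (R P : ℝ → ℝ) (y : ℝ) :
    Zp α R P y = 1 + R y - 4 / IQ * P y := by
  have h1 : kOne α = (2 * α + 1) * IQ / 4 := rfl
  unfold Zp wOne
  rw [h1]
  have h2 : 0 < 2 * α + 1 := by linarith
  field_simp
  ring

/-- `Z` minus `tanh` -/
theorem zv_tail (hQ : S_QF) (hE : S_ECL1) {α : ℝ} (hα : 0 < α) {R P : ℝ → ℝ} (h : IsRP R P) :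
    IsE (fun y => Zp α R P y - Real.tanh (2 * y)) := by
  have hI := zv_IQ hQ hE
  refine pr_congrE (pr_Eadd hE h.R_E (pr_smulE hE (-(4 / IQ)) (pr_P_e hE h))) fun y => ?_
  have h1 : (∫ y, Q y) = IQ := rfl
  rw [zv_form hα hI, h1, chiM]
  field_simp
  ring

theorem zv_P (hQ : S_QF) (hE : S_ECL1) {α : ℝ} (hα : 0 < α) {R P : ℝ → ℝ} (h : IsRP R P) :
    IsP (Zp α R P) := by
  refine pr_congrP (pr_Padd hE (pr_EP hE (zv_tail hQ hE hα h)) (pr_tanh hE)) fun y => ?_
  ring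

theorem zv_Lop (hQ : S_QF) (hE : S_ECL1) {α : ℝ} (hα : 0 < α) {R P : ℝ → ℝ} (h : IsRP R P)
    (y : ℝ) : Lop (Zp α R P) y = 1 - 4 / IQ * Lop P y := by
  have hI := zv_IQ hQ hE
  have e : Zp α R P = fun y => (1 + R y) + (-(4 / IQ)) * P y := by
    funext y
    rw [zv_form hα hI]
    ring
  have h1 : IsP (fun y => 1 + R y) := pr_Padd hE (pr_const hE 1) (pr_EP hE h.R_E)
  have hP := pr_P_P hE h
  rw [e, pr_Lop_add hE h1 (pr_smulP hE _ hP), pr_Lop_smul hE _ hP, h.R_eq]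
  ring

theorem zv_eqn (hQ : S_QF) (hE : S_ECL1) {α : ℝ} (hα : 0 < α) {R P : ℝ → ℝ} (h : IsRP R P)
    (y : ℝ) : HasDerivAt (Lop (Zp α R P)) (-(4 / IQ) * Lam Q y) y := by
  have e : Lop (Zp α R P) = fun y => 1 - 4 / IQ * Lop P y := funext (zv_Lop hQ hE hα h)
  rw [e]
  refine ((h.P_eq y).const_mul (4 / IQ)).const_sub 1 |>.congr_deriv ?_
  ring

theorem zv_Lop_neg (hQ : S_QF) (f : ℝ → ℝ) (y : ℝ) :
    Lop (fun x => f (-x)) y = Lop f (-y) := by
  have h1 : deriv (fun x => f (-x)) = fun x => - deriv f (-x) := by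
    funext x
    exact deriv_comp_neg f x
  have h2 : deriv (deriv (fun x => f (-x))) y = deriv (deriv f) (-y) := by
    rw [h1]
    have h3 : (fun x => - deriv f (-x)) = fun x => -((fun x => deriv f (-x)) x) := rfl
    rw [h3, deriv.fun_neg, deriv_comp_neg (deriv f) y, neg_neg]
  unfold Lop
  rw [h2, hQ.2.2.1 y]

theorem zv_Lam_even (hQ : S_QF) (y : ℝ) : Lam Q (-y) = Lam Q y := by
  unfold Lam
  rw [Pool.Agent.Helper38.KV.Qd_odd hQ, hQ.2.2.1 y]
  ring

theorem zv_odd (hQ : S_QF) (hE : S_ECL1) (hG : S_GREEN) {α : ℝ} (hα : 0 < α) {R P : ℝ → ℝ}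
    (h : IsRP R P) (y : ℝ) : Zp α R P (-y) = - Zp α R P y := by
  have hT := zv_tail hQ hE hα h
  have hZP := zv_P hQ hE hα h
  have hrefl := hE.2.2.2.2.2.2.2.2.2.2.2.2.2.2.1 _ hT
  have h0 : IsE (fun y => Zp α R P y + Zp α R P (-y)) := by
    refine pr_congrE (pr_Eadd hE hT hrefl) fun y => ?_
    have : Real.tanh (2 * -y) = - Real.tanh (2 * y) := by
      rw [mul_neg, Real.tanh_neg]
    rw [this]
    ring
  have hZP' : IsP (fun y => Zp α R P (-y)) := by
    refine pr_congrP (pr_Padd hE (pr_EP hE h0) (pr_smulP hE (-1) hZP)) fun y => ?_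
    ring
  have hL : ∀ y, Lop (fun y => Zp α R P y + Zp α R P (-y)) y =
      Lop (Zp α R P) y + Lop (Zp α R P) (-y) := by
    intro y
    rw [pr_Lop_add hE hZP hZP', zv_Lop_neg hQ]
  have hd : ∀ y, HasDerivAt (Lop (fun y => Zp α R P y + Zp α R P (-y))) 0 y := by
    intro y
    have e : Lop (fun y => Zp α R P y + Zp α R P (-y)) =
      fun y => Lop (Zp α R P) y + Lop (Zp α R P) (-y) := funext hL
    rw [e]
    have h1 := zv_eqn hQ hE hα h y
    have h2 := (zv_eqn hQ hE hα h (-y)).comp y (hasDerivAt_neg y)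
    refine (h1.add h2).congr_deriv ?_
    rw [zv_Lam_even hQ]
    ring
  have hc : ∀ x, Lop (fun y => Zp α R P y + Zp α R P (-y)) x = 0 := by
    intro x
    have h1 : ∀ z, Lop (fun y => Zp α R P y + Zp α R P (-y)) z =
        Lop (fun y => Zp α R P y + Zp α R P (-y)) x := fun z =>
      is_const_of_deriv_eq_zero (fun y => (hd y).differentiableAt) (fun y => (hd y).deriv) z x
    have h2 := (Pool.Agent.Helper38.KV.IsE.tendsto (pr_Lop_E hQ hE h0)).1
    have h3 : Tendsto (Lop (fun y => Zp α R P y + Zp α R P (-y))) atTop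
        (𝓝 (Lop (fun y => Zp α R P y + Zp α R P (-y)) x)) := by
      refine Tendsto.congr (fun z => (h1 z).symm) tendsto_const_nhds
    exact tendsto_nhds_unique h3 h2
  have hi : (∫ y, (Zp α R P y + Zp α R P (-y)) * deriv Q y) = 0 := by
    have h1 := integral_neg_eq_self (fun y => (Zp α R P y + Zp α R P (-y)) * deriv Q y) volume
    have h2 : (fun y => (Zp α R P (-y) + Zp α R P (- -y)) * deriv Q (-y)) =
        fun y => -((Zp α R P y + Zp α R P (-y)) * deriv Q y) := by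
      funext y
      rw [Pool.Agent.Helper38.KV.Qd_odd hQ, neg_neg]
      ring
    rw [h2, integral_neg] at h1
    linarith
  have h9 : Zp α R P y + Zp α R P (-y) = 0 := hG.2 _ h0 hc hi y
  linarith

theorem zv_bdd (hQ : S_QF) (hE : S_ECL1) {α : ℝ} (hα : 0 < α) {R P : ℝ → ℝ} (h : IsRP R P) :
    ∃ M : ℝ, ∀ y, |Zp α R P y| ≤ M := by
  obtain ⟨C, hC⟩ := (zv_tail hQ hE hα h).2 0 0 one_pos
  refine ⟨C + 1, fun y => ?_⟩
  have h1 := hC y
  rw [iteratedDeriv_zero, zero_mul, neg_zero, Real.exp_zero, mul_one] at h1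
  have h2 : |Real.tanh (2 * y)| ≤ 1 := (Real.abs_tanh_lt_one _).le
  have h3 : Zp α R P y = (Zp α R P y - Real.tanh (2 * y)) + Real.tanh (2 * y) := by ring
  rw [h3]
  exact (abs_add_le _ _).trans (add_le_add h1 h2)

theorem thm_ZV (hQ : S_QF) (hE : S_ECL1) (hG : S_GREEN) (_hP : S_PAIR) : S_ZV := by
  intro R P hRP α hα hα1
  have hI := zv_IQ hQ hE
  have hk : kap α = kOne α := rfl
  have hk0 : 0 < kOne α := by
    rw [← hk, kap]
    have : 0 < 2 * α + 1 := by linarith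
    positivity
  refine ⟨hk, hk0, ⟨zv_tail hQ hE hα hRP, zv_odd hQ hE hG hα hRP, zv_eqn hQ hE hα hRP⟩,
    zv_form hα hI R P, zv_bdd hQ hE hα hRP, ?_⟩
  intro J n h0 h1 h2 h3 p c1 a0 ω2 ω3 e3 w hD
  have hg : ∀ y, kOne α + wOne α R P y = kap α * Zp α R P y := by
    intro y
    rw [hk, Zp]
    field_simp
  refine ⟨⟨c1 + a0 / 2, -(a0 / 2), ?_⟩, fun y => ?_⟩
  · refine pr_congrE hD.tail2 fun y => ?_
    simp only [Polynomial.eval_sub, Polynomial.eval_C, Polynomial.eval_mul, Polynomial.eval_X,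
      V2p, cc, hk, chiM]
    ring
  · have h4 := hD.eq2 y
    have e1 : (fun x => kOne α * (α - 1/2) * x + c1 + ω2 x) = V2p α c1 ω2 := rfl
    have e2 : (fun y' => 10 * Q y' ^ 3 * (kOne α + wOne α R P y') ^ 2) =
        fun x => 10 * Q x ^ 3 * (kap α * Zp α R P x) ^ 2 := by
      funext x
      rw [hg]
    have e3 : (fun x => kOne α + wOne α R P x) = fun x => kap α * Zp α R P x := funext hg
    have e4 : Lam (fun x => kap α * Zp α R P x) y = kap α * Lam (Zp α R P) y := by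
      unfold Lam
      rw [deriv_const_mul_field]
      ring
    rw [e1, e2, e3, hg, e4] at h4
    refine h4.congr_deriv ?_
    ring

end Pool.Agent.Helper41.KV
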