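import Pool.Agent.Helper61.KV.WT0
import Pool.Agent.Helper48.KV.GoalsJ

/-!
# Packet KV-J NEARB: the transition region is controlled by the near-soliton norms
-/

open MeasureTheory Set Filter Topology

noncomputable section

namespace Pool.Agent.Helper61.KV

open Pool.Agent.Helper33.KV Pool.Agent.Helper41.KV Pool.Agent.Helper48.KV

theorem trans_eq {K ρ : ℝ} (hK : 0 < K) (hρ : 0 < ρ) :
    {y | 1 / 4 ≤ wt K ρ y ∧ wt K ρ y ≤ 3 / 4} = Icc (K * Real.log (ρ / 3)) (K * Real.log (3 * ρ)) := by
  ext y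
  have hd := wden_pos (K := K) hρ y
  have h1 : 1 / 4 ≤ wt K ρ y ↔ K * Real.log (ρ / 3) ≤ y := by
    rw [wt, div_le_div_iff₀ (by norm_num) hd]
    have e1 : (1 * (1 + ρ * Real.exp (-(y / K))) ≤ 1 * 4) ↔ Real.exp (-(y / K)) ≤ 3 / ρ := by
      rw [le_div_iff₀ hρ]
      constructor <;> intro h <;> nlinarith
    rw [e1, ← Real.le_log_iff_exp_le (by positivity), Real.log_div (by norm_num) hρ.ne',
      Real.log_div hρ.ne' (by norm_num)]
    have e2 : y / K * K = y := div_mul_cancel₀ y hK.ne'
    constructor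
    · intro h
      nlinarith
    · intro h
      by_contra h2
      rw [not_le] at h2
      nlinarith
  have h2 : wt K ρ y ≤ 3 / 4 ↔ y ≤ K * Real.log (3 * ρ) := by
    rw [wt, div_le_div_iff₀ hd (by norm_num)]
    have e1 : (1 * 4 ≤ 3 * (1 + ρ * Real.exp (-(y / K)))) ↔ 1 / (3 * ρ) ≤ Real.exp (-(y / K)) := by
      rw [div_le_iff₀ (by positivity)]
      constructor <;> intro h <;> nlinarith
    rw [e1, ← Real.log_le_iff_le_exp (by positivity), Real.log_div (by norm_num) (by positivity),
      Real.log_one]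
    have e2 : y / K * K = y := div_mul_cancel₀ y hK.ne'
    constructor
    · intro h
      nlinarith
    · intro h
      by_contra h2
      rw [not_le] at h2
      nlinarith
  rw [mem_ofPred_eq, mem_Icc, h1, h2]

theorem log_nine : 1 ≤ Real.log 9 := by
  rw [Real.le_log_iff_exp_le (by norm_num)]
  exact Real.exp_one_lt_d9.le.trans (by norm_num)

theorem trans_len {K ρ : ℝ} (hρ : 0 < ρ) :
    K * Real.log (3 * ρ) - K * Real.log (ρ / 3) = K * Real.log 9 := by
  rw [Real.log_mul (by norm_num) hρ.ne', Real.log_div hρ.ne' (by norm_num),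
    show (9 : ℝ) = 3 * 3 by norm_num, Real.log_mul (by norm_num) (by norm_num)]
  ring

/-- sup bound on an interval of length at least one -/
theorem sup_one (w : ℝ → ℝ) (a b : ℝ) (hw : ContDiff ℝ 1 w) (hab : 1 ≤ b - a) (x : ℝ)
    (hx : x ∈ Icc a b) :
    w x ^ 2 ≤ 2 * ∫ y in Icc a b, (deriv w y ^ 2 + w y ^ 2) := by
  have hc : Continuous w := hw.continuous
  have hd : Continuous (deriv w) := hw.continuous_deriv le_rfl
  have hcc : Continuous (fun y => deriv w y ^ 2 + w y ^ 2) := (hd.pow 2).add (hc.pow 2)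
  set M := ∫ y in Icc a b, (deriv w y ^ 2 + w y ^ 2) with hM
  have hM0 : 0 ≤ M := integral_nonneg fun x => by positivity
  have hpt : ∀ y ∈ Icc a b, w x ^ 2 ≤ w y ^ 2 + M := by
    intro y hy
    have h1 : ∫ s in y..x, 2 * (w s * deriv w s) = w x ^ 2 - w y ^ 2 := by
      apply intervalIntegral.integral_eq_sub_of_hasDerivAt
      · intro s _
        have h2 := ((hw.differentiable one_ne_zero) s).hasDerivAt.pow 2
        refine h2.congr_deriv ?_
        norm_num
        ring
      · exact (continuous_const.mul (hc.mul hd)).intervalIntegrable _ _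
    have h2 := intervalIntegral.norm_integral_le_integral_norm_uIoc
      (f := fun s => 2 * (w s * deriv w s)) (a := y) (b := x) (μ := volume)
    rw [h1] at h2
    have h3 : (∫ s in uIoc y x, ‖2 * (w s * deriv w s)‖) ≤
        ∫ s in Icc a b, ‖2 * (w s * deriv w s)‖ := by
      apply setIntegral_mono_set
      · exact (continuous_const.mul (hc.mul hd)).norm.integrableOn_Icc
      · exact ae_of_all _ fun s => norm_nonneg _
      · apply LE.le.eventuallyLE
        intro s hs
        exact (Set.uIcc_subset_Icc hy hx) (uIoc_subset_uIcc hs)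
    have h5 : (∫ s in Icc a b, ‖2 * (w s * deriv w s)‖) ≤ M := by
      apply setIntegral_mono_on
      · exact (continuous_const.mul (hc.mul hd)).norm.integrableOn_Icc
      · exact hcc.integrableOn_Icc
      · exact measurableSet_Icc
      · intro s _
        rw [Real.norm_eq_abs, abs_le]
        constructor <;> nlinarith [sq_nonneg (w s + deriv w s), sq_nonneg (w s - deriv w s)]
    have h6 : w x ^ 2 - w y ^ 2 ≤ M := (le_abs_self _).trans (h2.trans (h3.trans h5))
    linarith
  have hav : ∫ _y in Icc a b, w x ^ 2 ≤ ∫ y in Icc a b, (w y ^ 2 + M) := by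
    apply setIntegral_mono_on
    · exact continuous_const.integrableOn_Icc
    · exact ((hc.pow 2).add continuous_const).integrableOn_Icc
    · exact measurableSet_Icc
    · exact hpt
  have i1 : IntegrableOn (fun y => w y ^ 2) (Icc a b) := (hc.pow 2).integrableOn_Icc
  have i2 : IntegrableOn (fun _ : ℝ => M) (Icc a b) := continuous_const.integrableOn_Icc
  have hm : (∫ y in Icc a b, w y ^ 2) ≤ M := by
    apply setIntegral_mono_on i1 hcc.integrableOn_Icc measurableSet_Icc
    intro y _
    nlinarith [sq_nonneg (deriv w y)]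
  have hvol : volume.real (Icc a b) = b - a := Real.volume_real_Icc_of_le (by linarith)
  rw [integral_add i1 i2, setIntegral_const, setIntegral_const, hvol, smul_eq_mul,
    smul_eq_mul] at hav
  by_contra h
  rw [not_le] at h
  nlinarith

/-- change of variables -/
theorem int_scale (F : ℝ → ℝ) (s l : ℝ) (hl : 0 < l) :
    (∫ x, F x) = l * ∫ y, F (s + l * y) := by
  have h1 := Measure.integral_comp_mul_left (fun z => F (s + z)) l
  rw [abs_of_pos (by positivity), smul_eq_mul, integral_add_left_eq_self F s] at h1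
  rw [h1, ← mul_assoc, mul_inv_cancel₀ hl.ne', one_mul]

theorem ind_eq (α K t y : ℝ) (hl : 0 < lam α t) :
    ind α K t (sig α t + lam α t * y) =
      {y | 1 / 4 ≤ wt K (rho α t) y ∧ wt K (rho α t) y ≤ 3 / 4}.indicator (fun _ => (1 : ℝ)) y := by
  have h1 : pW α K t (sig α t + lam α t * y) = wt K (rho α t) y := by
    rw [pW, add_sub_cancel_left, mul_div_cancel_left₀ _ hl.ne']
  unfold ind nearS
  by_cases h : y ∈ {y | 1 / 4 ≤ wt K (rho α t) y ∧ wt K (rho α t) y ≤ 3 / 4}
  · rw [indicator_of_mem h, indicator_of_mem]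
    rw [mem_ofPred_eq, h1]
    exact h
  · rw [indicator_of_notMem h, indicator_of_notMem]
    rw [mem_ofPred_eq, h1]
    exact h

theorem ind_int (α K t : ℝ) (hl : 0 < lam α t) (hK : 0 < K) (hr : 0 < rho α t) (F : ℝ → ℝ) :
    (∫ x, ind α K t x * F x) = ∫ y in Icc (K * Real.log (rho α t / 3)) (K * Real.log (3 * rho α t)),
      lam α t * F (sig α t + lam α t * y) := by
  rw [int_scale _ (sig α t) (lam α t) hl, ← integral_const_mul, ← trans_eq hK hr]
  have hm : MeasurableSet {y | 1 / 4 ≤ wt K (rho α t) y ∧ wt K (rho α t) y ≤ 3 / 4} := by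
    rw [trans_eq hK hr]
    exact measurableSet_Icc
  rw [← integral_indicator hm]
  congr 1
  funext y
  rw [ind_eq α K t y hl]
  by_cases h : y ∈ {y | 1 / 4 ≤ wt K (rho α t) y ∧ wt K (rho α t) y ≤ 3 / 4}
  · rw [indicator_of_mem h, indicator_of_mem h, one_mul]
  · rw [indicator_of_notMem h, indicator_of_notMem h, zero_mul, mul_zero]

theorem HI_cont {e : ℝ → ℝ} (he : HI e) :
    Continuous e ∧ Continuous (deriv e) ∧ Continuous (deriv (deriv e)) := by
  have h0 := he.1.continuous
  have h1 := (contDiff_infty_iff_deriv.1 he.1).2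
  have h2 := (contDiff_infty_iff_deriv.1 h1).2
  exact ⟨h0, h1.continuous, h2.continuous⟩

theorem HI_int {e : ℝ → ℝ} (he : HI e) :
    Integrable (fun y => e y ^ 2) ∧ Integrable (fun y => deriv e y ^ 2) ∧
      Integrable (fun y => deriv (deriv e) y ^ 2) := by
  have h0 := (he.2 0).integrable_sq
  have h1 := (he.2 1).integrable_sq
  have h2 := (he.2 2).integrable_sq
  rw [iteratedDeriv_zero] at h0
  rw [iteratedDeriv_one] at h1
  rw [iteratedDeriv_succ, iteratedDeriv_one] at h2
  exact ⟨h0, h1, h2⟩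

theorem w_int {g f : ℝ → ℝ} (hg : Continuous g) (hg0 : ∀ y, 0 ≤ g y) (hg1 : ∀ y, g y ≤ 1)
    (hf : Integrable f) : Integrable (fun y => g y * f y) := by
  refine hf.bdd_mul (c := 1) hg.aestronglyMeasurable (ae_of_all _ fun y => ?_)
  rw [Real.norm_eq_abs, abs_of_nonneg (hg0 y)]
  exact hg1 y

theorem ten (a b : ℝ) : (a + b) ^ 10 ≤ 512 * (a ^ 10 + b ^ 10) := by
  have h1 : (a + b) ^ 2 ≤ 2 * (a ^ 2 + b ^ 2) := by nlinarith [sq_nonneg (a - b)]
  have h2 : ((a + b) ^ 2) ^ 5 ≤ (2 * (a ^ 2 + b ^ 2)) ^ 5 := pow_le_pow_left₀ (sq_nonneg _) h1 5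
  have h3 := add_pow_le (sq_nonneg a) (sq_nonneg b) 5
  have h4 : (a ^ 2 + b ^ 2) ^ 5 ≤ 16 * (a ^ 10 + b ^ 10) := by
    calc (a ^ 2 + b ^ 2) ^ 5 ≤ 2 ^ (5 - 1) * ((a ^ 2) ^ 5 + (b ^ 2) ^ 5) := h3
      _ = 16 * (a ^ 10 + b ^ 10) := by norm_num; ring
  calc (a + b) ^ 10 = ((a + b) ^ 2) ^ 5 := by ring
    _ ≤ (2 * (a ^ 2 + b ^ 2)) ^ 5 := h2
    _ = 32 * (a ^ 2 + b ^ 2) ^ 5 := by ring
    _ ≤ 32 * (16 * (a ^ 10 + b ^ 10)) := by linarith
    _ = _ := by ring

/-- Packet NEARB -/
theorem nearb (_h1 : S_WT0) (h2 : S_SCL) (h3 : S_CUT) : S_NEARB := by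
  intro α K CV hα hα1 hK hCV
  have hK0 : 0 < K := by linarith
  obtain ⟨C0, T0, hC0, hT0, hT1, hT2, hcut, -⟩ := h3 α K hα hα1 hK
  have hlog := log_nine
  have hℓ : 0 < K * Real.log 9 := by positivity
  have hA : 0 < 6 * CV ^ 2 + 512 * CV ^ 10 := by positivity
  refine ⟨K * Real.log 9 * (6 * CV ^ 2 + 512 * CV ^ 10) + (2 + 512 * 8 ^ 4) * (16 * K / 3) + 8, T0,
    by positivity, hT0, hT1, ?_⟩
  intro t ht htT w V e hw he hV hrel hVb hHn
  have ht4 : (4 * α + 3) * t ≤ 1 := by
    refine le_trans (mul_le_mul_of_nonneg_left htT ?_) hT2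
    linarith
  obtain ⟨-, -, hl, hl1, hr, hr1, -⟩ := h2 α t hα hα1 ht ht4
  have hcutx := (hcut t ht htT).2.2.1
  set y1 := K * Real.log (rho α t / 3) with hy1
  set y2 := K * Real.log (3 * rho α t) with hy2
  have hlen : y2 - y1 = K * Real.log 9 := trans_len hr
  have hlen1 : 1 ≤ y2 - y1 := by
    rw [hlen]
    nlinarith
  have hI : ∀ y ∈ Icc y1 y2, 1 / 4 ≤ wt K (rho α t) y ∧ wt K (rho α t) y ≤ 3 / 4 := by
    intro y hy
    have h := trans_eq hK0 hr
    rw [← hy1, ← hy2] at h
    rw [← h] at hy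
    exact hy
  have hO : ∀ y ∈ Icc y1 y2, -2 < sig α t + lam α t * y := by
    intro y hy
    by_contra h
    rw [not_lt] at h
    have h4 := hcutx (sig α t + lam α t * y) (by linarith)
    rw [pW, add_sub_cancel_left, mul_div_cancel_left₀ _ hl.ne'] at h4
    linarith [(hI y hy).1]
  obtain ⟨ce0, ce1, ce2⟩ := HI_cont he
  obtain ⟨ie0, ie1, ie2⟩ := HI_int he
  set s := Real.sqrt (lam α t) with hs
  have hs2 : s ^ 2 = lam α t := Real.sq_sqrt hl.le
  -- derivatives of the relation
  have hw' := contDiff_infty_iff_deriv.1 hw.1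
  have hw'' := contDiff_infty_iff_deriv.1 hw'.2
  have hV' := contDiff_infty_iff_deriv.1 hV
  have hV'' := contDiff_infty_iff_deriv.1 hV'.2
  have he' := contDiff_infty_iff_deriv.1 he.1
  have he'' := contDiff_infty_iff_deriv.1 he'.2
  have hlin : ∀ y, HasDerivAt (fun y : ℝ => sig α t + lam α t * y) (lam α t) y := fun y => by
    have h := ((hasDerivAt_id y).const_mul (lam α t)).const_add (sig α t)
    rw [mul_one] at h
    exact h
  have hopen : IsOpen {y : ℝ | -2 < sig α t + lam α t * y} :=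
    isOpen_lt continuous_const (by fun_prop)
  have r1 : ∀ y, -2 < sig α t + lam α t * y →
      s * lam α t * deriv w (sig α t + lam α t * y) = deriv V y + deriv e y := by
    intro y hy
    have d1 : HasDerivAt (fun y => s * w (sig α t + lam α t * y))
        (s * (deriv w (sig α t + lam α t * y) * lam α t)) y :=
      ((hw'.1 _).hasDerivAt.comp y (hlin y)).const_mul s
    have d2 : HasDerivAt (fun y => V y + e y) (deriv V y + deriv e y) y :=
      (hV'.1 y).hasDerivAt.add (he'.1 y).hasDerivAt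
    have d3 : (fun y => s * w (sig α t + lam α t * y)) =ᶠ[𝓝 y] fun y => V y + e y := by
      filter_upwards [hopen.mem_nhds hy] with z hz
      exact hrel z (le_of_lt hz)
    have d4 := (d2.congr_of_eventuallyEq d3).unique d1
    rw [d4]
    ring
  have r2 : ∀ y, -2 < sig α t + lam α t * y →
      s * lam α t ^ 2 * deriv (deriv w) (sig α t + lam α t * y) =
        deriv (deriv V) y + deriv (deriv e) y := by
    intro y hy
    have d1 : HasDerivAt (fun y => s * lam α t * deriv w (sig α t + lam α t * y))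
        (s * lam α t * (deriv (deriv w) (sig α t + lam α t * y) * lam α t)) y :=
      ((hw''.1 _).hasDerivAt.comp y (hlin y)).const_mul (s * lam α t)
    have d2 : HasDerivAt (fun y => deriv V y + deriv e y)
        (deriv (deriv V) y + deriv (deriv e) y) y :=
      (hV''.1 y).hasDerivAt.add (he''.1 y).hasDerivAt
    have d3 : (fun y => s * lam α t * deriv w (sig α t + lam α t * y)) =ᶠ[𝓝 y]
        fun y => deriv V y + deriv e y := by
      filter_upwards [hopen.mem_nhds hy] with z hz
      exact r1 z hz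
    have d4 := (d2.congr_of_eventuallyEq d3).unique d1
    rw [d4]
    ring
  -- local bounds
  have hwt : Continuous (wt K (rho α t)) := (wt_contDiff hr).continuous
  have hphc : Continuous (ph1 K (rho α t)) := (ph1_contDiff hr).continuous
  have cI2 : Continuous (fun y => deriv e y ^ 2 + e y ^ 2) := (ce1.pow 2).add (ce0.pow 2)
  have cI3 : Continuous (fun y => deriv (deriv e) y ^ 2 + deriv e y ^ 2 + e y ^ 2) :=
    ((ce2.pow 2).add (ce1.pow 2)).add (ce0.pow 2)
  have hph1 : ∀ y, ph1 K (rho α t) y ≤ 1 := by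
    intro y
    refine (ph1_le hK0 hr y).trans ?_
    rw [div_le_one hK0]
    exact (wt_lt_one hr y).le.trans hK
  have iH : Integrable (fun y => wt K (rho α t) y * (deriv e y ^ 2 + e y ^ 2)) :=
    w_int hwt (fun y => (wt_pos hr y).le) (fun y => (wt_lt_one hr y).le) (ie1.add ie0)
  have iD : Integrable (fun y => ph1 K (rho α t) y *
      (deriv (deriv e) y ^ 2 + deriv e y ^ 2 + e y ^ 2)) :=
    w_int hphc (fun y => (ph1_pos hK0 hr y).le) hph1 ((ie2.add ie1).add ie0)
  have bH : (∫ y in Icc y1 y2, (deriv e y ^ 2 + e y ^ 2)) ≤ 4 * Hn K (rho α t) e := by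
    have h4 : (∫ y in Icc y1 y2, (deriv e y ^ 2 + e y ^ 2)) ≤
        ∫ y in Icc y1 y2, 4 * (wt K (rho α t) y * (deriv e y ^ 2 + e y ^ 2)) := by
      apply setIntegral_mono_on cI2.integrableOn_Icc _ measurableSet_Icc
      · intro y hy
        have h5 := (hI y hy).1
        have h6 : 0 ≤ deriv e y ^ 2 + e y ^ 2 := by positivity
        nlinarith
      · exact (continuous_const.mul (hwt.mul cI2)).integrableOn_Icc
    refine h4.trans ?_
    rw [integral_const_mul, Hn]
    refine mul_le_mul_of_nonneg_left (setIntegral_le_integral iH (ae_of_all _ fun y => ?_))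
      (by norm_num)
    exact mul_nonneg (wt_pos hr y).le (by positivity)
  have bD : (∫ y in Icc y1 y2, (deriv (deriv e) y ^ 2 + deriv e y ^ 2 + e y ^ 2)) ≤
      16 * K / 3 * Dn K (rho α t) e := by
    have h4 : (∫ y in Icc y1 y2, (deriv (deriv e) y ^ 2 + deriv e y ^ 2 + e y ^ 2)) ≤
        ∫ y in Icc y1 y2, 16 * K / 3 * (ph1 K (rho α t) y *
          (deriv (deriv e) y ^ 2 + deriv e y ^ 2 + e y ^ 2)) := by
      apply setIntegral_mono_on cI3.integrableOn_Icc _ measurableSet_Icc
      · intro y hy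
        obtain ⟨h5, h5'⟩ := hI y hy
        have h6 : 0 ≤ deriv (deriv e) y ^ 2 + deriv e y ^ 2 + e y ^ 2 := by positivity
        have h7 : 1 ≤ 16 * K / 3 * ph1 K (rho α t) y := by
          rw [ph1]
          have h8 : 16 * K / 3 * (wt K (rho α t) y * (1 - wt K (rho α t) y) / K) =
              16 / 3 * (wt K (rho α t) y * (1 - wt K (rho α t) y)) := by
            field_simp
          rw [h8]
          nlinarith
        calc deriv (deriv e) y ^ 2 + deriv e y ^ 2 + e y ^ 2
            = 1 * (deriv (deriv e) y ^ 2 + deriv e y ^ 2 + e y ^ 2) := (one_mul _).symm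
          _ ≤ (16 * K / 3 * ph1 K (rho α t) y) *
              (deriv (deriv e) y ^ 2 + deriv e y ^ 2 + e y ^ 2) :=
              mul_le_mul_of_nonneg_right h7 h6
          _ = _ := by ring
      · exact (continuous_const.mul (hphc.mul cI3)).integrableOn_Icc
    refine h4.trans ?_
    rw [integral_const_mul, Dn]
    refine mul_le_mul_of_nonneg_left (setIntegral_le_integral iD (ae_of_all _ fun y => ?_))
      (by positivity)
    exact mul_nonneg (ph1_pos hK0 hr y).le (by positivity)
  have hHn0 : 0 ≤ Hn K (rho α t) e := integral_nonneg fun y =>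
    mul_nonneg (wt_pos hr y).le (by positivity)
  have hDn0 : 0 ≤ Dn K (rho α t) e := integral_nonneg fun y =>
    mul_nonneg (ph1_pos hK0 hr y).le (by positivity)
  have hsup : ∀ y ∈ Icc y1 y2, e y ^ 2 ≤ 8 := by
    intro y hy
    have h4 := sup_one e y1 y2 (he.1.of_le (WithTop.coe_le_coe.2 (le_top : (1 : ℕ∞) ≤ ⊤))) hlen1 y hy
    linarith
  have hvol : volume.real (Icc y1 y2) = K * Real.log 9 := by
    rw [Real.volume_real_Icc_of_le (by linarith), hlen]
  have hr2 : 0 ≤ rho α t ^ 2 := by positivity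
  have hVsq : ∀ v : ℝ, |v| ≤ CV * rho α t → v ^ 2 ≤ CV ^ 2 * rho α t ^ 2 := by
    intro v hv
    rw [← sq_abs, ← mul_pow]
    exact pow_le_pow_left₀ (abs_nonneg _) hv 2
  have hVten : ∀ v : ℝ, |v| ≤ CV * rho α t → v ^ 10 ≤ CV ^ 10 * rho α t ^ 2 := by
    intro v hv
    have h4 : |v| ^ 10 ≤ (CV * rho α t) ^ 10 := pow_le_pow_left₀ (abs_nonneg _) hv 10
    have h5 : |v| ^ 10 = v ^ 10 := by
      rw [show (10 : ℕ) = 2 * 5 by norm_num, pow_mul, pow_mul, sq_abs]
    rw [h5, mul_pow] at h4
    refine h4.trans (mul_le_mul_of_nonneg_left ?_ (by positivity))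
    exact pow_le_pow_of_le_one hr.le hr1 (by norm_num)
  have hsq : ∀ a b : ℝ, (a + b) ^ 2 ≤ 2 * a ^ 2 + 2 * b ^ 2 := by
    intro a b
    nlinarith [sq_nonneg (a - b)]
  constructor
  · have e1 : NRf α K t w = ∫ y in Icc y1 y2, lam α t * nrI α t w (sig α t + lam α t * y) := by
      rw [NRf]
      exact ind_int α K t hl hK0 hr _
    have hcont : Continuous (fun y => lam α t * nrI α t w (sig α t + lam α t * y)) := by
      obtain ⟨cw0, cw1, cw2⟩ := HI_cont hw
      have ci2 : Continuous (iteratedDeriv 2 w) := by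
        rw [iteratedDeriv_succ, iteratedDeriv_one]
        exact cw2
      unfold nrI
      fun_prop
    have h4 : (∫ y in Icc y1 y2, lam α t * nrI α t w (sig α t + lam α t * y)) ≤
        ∫ y in Icc y1 y2, ((6 * CV ^ 2 + 512 * CV ^ 10) * rho α t ^ 2 + (2 + 512 * 8 ^ 4) *
          (deriv (deriv e) y ^ 2 + deriv e y ^ 2 + e y ^ 2)) := by
      apply setIntegral_mono_on hcont.integrableOn_Icc _ measurableSet_Icc
      · intro y hy
        have hyO := hO y hy
        obtain ⟨v0, v1, v2⟩ := hVb y (hI y hy).1 (hI y hy).2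
        have e5 : lam α t * nrI α t w (sig α t + lam α t * y) =
            (deriv (deriv V) y + deriv (deriv e) y) ^ 2 + (deriv V y + deriv e y) ^ 2 +
              (V y + e y) ^ 2 + (V y + e y) ^ 10 := by
          rw [← r2 y hyO, ← r1 y hyO, ← hrel y hyO.le, nrI, iteratedDeriv_succ, iteratedDeriv_one,
            ← hs2]
          ring
        rw [e5]
        have b2 := (hsq (deriv (deriv V) y) (deriv (deriv e) y))
        have b1 := (hsq (deriv V y) (deriv e y))
        have b0 := (hsq (V y) (e y))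
        have bt := ten (V y) (e y)
        have q0 := hVsq _ v0
        have q1 := hVsq _ v1
        have q2 := hVsq _ v2
        have qt := hVten _ v0
        have hs8 := hsup y hy
        have h9 : e y ^ 10 ≤ 8 ^ 4 * e y ^ 2 := by
          have h10 : (e y ^ 2) ^ 4 ≤ 8 ^ 4 := pow_le_pow_left₀ (sq_nonneg _) hs8 4
          calc e y ^ 10 = (e y ^ 2) ^ 4 * e y ^ 2 := by ring
            _ ≤ 8 ^ 4 * e y ^ 2 := mul_le_mul_of_nonneg_right h10 (sq_nonneg _)
        have p1 : 0 ≤ deriv (deriv e) y ^ 2 := sq_nonneg _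
        have p2 : 0 ≤ deriv e y ^ 2 := sq_nonneg _
        nlinarith
      · exact (continuous_const.add (continuous_const.mul cI3)).integrableOn_Icc
    have i1 : IntegrableOn (fun _ : ℝ => (6 * CV ^ 2 + 512 * CV ^ 10) * rho α t ^ 2) (Icc y1 y2) :=
      continuous_const.integrableOn_Icc
    have i2 : IntegrableOn (fun y => (2 + 512 * 8 ^ 4) *
          (deriv (deriv e) y ^ 2 + deriv e y ^ 2 + e y ^ 2)) (Icc y1 y2) :=
      (continuous_const.mul cI3).integrableOn_Icc
    rw [integral_add i1 i2, setIntegral_const, hvol, smul_eq_mul, integral_const_mul,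
      integral_const_mul] at h4
    rw [e1, integral_const_mul]
    refine h4.trans ?_
    have h5 : (2 + 512 * 8 ^ 4) *
        (∫ y in Icc y1 y2, (deriv (deriv e) y ^ 2 + deriv e y ^ 2 + e y ^ 2)) ≤
        (2 + 512 * 8 ^ 4) * (16 * K / 3 * Dn K (rho α t) e) :=
      mul_le_mul_of_nonneg_left bD (by norm_num)
    have h6 : 0 ≤ K * Real.log 9 * (6 * CV ^ 2 + 512 * CV ^ 10) * Dn K (rho α t) e := by
      positivity
    have h7 : 0 ≤ ((2 + 512 * 8 ^ 4) * (16 * K / 3) + 8) * rho α t ^ 2 := by positivity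
    nlinarith
  · have e1 : NR0f α K t w = ∫ y in Icc y1 y2, lam α t *
        (lam α t ^ 2 * deriv w (sig α t + lam α t * y) ^ 2 + w (sig α t + lam α t * y) ^ 2) := by
      rw [NR0f]
      exact ind_int α K t hl hK0 hr _
    have hcont : Continuous (fun y => lam α t *
        (lam α t ^ 2 * deriv w (sig α t + lam α t * y) ^ 2 + w (sig α t + lam α t * y) ^ 2)) := by
      obtain ⟨cw0, cw1, cw2⟩ := HI_cont hw
      fun_prop
    have h4 : (∫ y in Icc y1 y2, lam α t *
        (lam α t ^ 2 * deriv w (sig α t + lam α t * y) ^ 2 + w (sig α t + lam α t * y) ^ 2)) ≤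
        ∫ y in Icc y1 y2, (4 * CV ^ 2 * rho α t ^ 2 + 2 * (deriv e y ^ 2 + e y ^ 2)) := by
      apply setIntegral_mono_on hcont.integrableOn_Icc _ measurableSet_Icc
      · intro y hy
        have hyO := hO y hy
        obtain ⟨v0, v1, v2⟩ := hVb y (hI y hy).1 (hI y hy).2
        have e5 : lam α t *
            (lam α t ^ 2 * deriv w (sig α t + lam α t * y) ^ 2 + w (sig α t + lam α t * y) ^ 2) =
            (deriv V y + deriv e y) ^ 2 + (V y + e y) ^ 2 := by
          rw [← r1 y hyO, ← hrel y hyO.le, ← hs2]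
          ring
        rw [e5]
        have b1 := (hsq (deriv V y) (deriv e y))
        have b0 := (hsq (V y) (e y))
        have q0 := hVsq _ v0
        have q1 := hVsq _ v1
        linarith
      · exact (continuous_const.add (continuous_const.mul cI2)).integrableOn_Icc
    have i1 : IntegrableOn (fun _ : ℝ => 4 * CV ^ 2 * rho α t ^ 2) (Icc y1 y2) :=
      continuous_const.integrableOn_Icc
    have i2 : IntegrableOn (fun y => 2 * (deriv e y ^ 2 + e y ^ 2)) (Icc y1 y2) :=
      (continuous_const.mul cI2).integrableOn_Icc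
    rw [integral_add i1 i2, setIntegral_const, hvol, smul_eq_mul, integral_const_mul,
      integral_const_mul] at h4
    rw [e1, integral_const_mul]
    refine h4.trans ?_
    have h6 : 0 ≤ (K * Real.log 9 * (6 * CV ^ 2 + 512 * CV ^ 10) +
        (2 + 512 * 8 ^ 4) * (16 * K / 3)) * Hn K (rho α t) e := by
      positivity
    have h7 : 0 ≤ (K * Real.log 9 * (2 * CV ^ 2 + 512 * CV ^ 10) +
        (2 + 512 * 8 ^ 4) * (16 * K / 3) + 8) * rho α t ^ 2 := by positivity
    nlinarith

end Pool.Agent.Helper61.KV
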