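import Pool.Agent.Helper48.KV.GoalsJ

/-!
# Packet KV-J P5: `L^5` bound on an interval
-/

open MeasureTheory Set Filter Topology

noncomputable section

namespace Pool.Agent.Helper61.KV

open Pool.Agent.Helper33.KV Pool.Agent.Helper41.KV Pool.Agent.Helper48.KV

/-- Cauchy-Schwarz on an interval -/
theorem p5_cs (f g : ℝ → ℝ) (hf : Continuous f) (hg : Continuous g) (a b : ℝ) :
    (∫ x in Icc a b, |f x * g x|) ^ 2 ≤ (∫ x in Icc a b, f x ^ 2) * ∫ x in Icc a b, g x ^ 2 := by
  have i1 : IntegrableOn (fun x => f x ^ 2) (Icc a b) := (hf.pow 2).integrableOn_Icc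
  have i2 : IntegrableOn (fun x => g x ^ 2) (Icc a b) := (hg.pow 2).integrableOn_Icc
  have i3 : IntegrableOn (fun x => |f x * g x|) (Icc a b) := (hf.mul hg).abs.integrableOn_Icc
  have h : ∀ t : ℝ, 0 ≤ (∫ x in Icc a b, f x ^ 2) * (t * t) +
      (2 * ∫ x in Icc a b, |f x * g x|) * t + ∫ x in Icc a b, g x ^ 2 := by
    intro t
    have h1 : 0 ≤ ∫ x in Icc a b, (|f x| * t + |g x|) ^ 2 :=
      integral_nonneg fun x => sq_nonneg _
    have h2 : (fun x => (|f x| * t + |g x|) ^ 2) =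
        fun x => (t * t) * f x ^ 2 + (2 * t) * |f x * g x| + g x ^ 2 := by
      funext x
      rw [abs_mul]
      have e1 := sq_abs (f x)
      have e2 := sq_abs (g x)
      rw [← e1, ← e2]
      ring
    have i4 : IntegrableOn (fun x => (t * t) * f x ^ 2) (Icc a b) := i1.const_mul _
    have i5 : IntegrableOn (fun x => (2 * t) * |f x * g x|) (Icc a b) := i3.const_mul _
    have i6 : IntegrableOn (fun x => (t * t) * f x ^ 2 + (2 * t) * |f x * g x|) (Icc a b) :=
      i4.add i5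
    rw [h2, integral_add i6 i2, integral_add i4 i5, integral_const_mul, integral_const_mul] at h1
    linarith
  have h2 := discrim_le_zero h
  rw [discrim] at h2
  nlinarith

theorem p5_sup (w : ℝ → ℝ) (a L : ℝ) (hw : ContDiff ℝ 1 w) (hL : 0 < L) (x : ℝ)
    (hx : x ∈ Icc (a - L) (a + L)) :
    w x ^ 2 ≤ 3 * Real.sqrt ((∫ x in Icc (a - L) (a + L), w x ^ 2) *
      ((∫ x in Icc (a - L) (a + L), deriv w x ^ 2) +
          (∫ x in Icc (a - L) (a + L), w x ^ 2) / L ^ 2)) := by
  have hc : Continuous w := hw.continuous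
  have hd : Continuous (deriv w) := hw.continuous_deriv le_rfl
  have hcs := p5_cs w (deriv w) hc hd (a - L) (a + L)
  set m := ∫ x in Icc (a - L) (a + L), w x ^ 2 with hm
  set e := ∫ x in Icc (a - L) (a + L), deriv w x ^ 2 with he
  set B := ∫ x in Icc (a - L) (a + L), |w x * deriv w x| with hB
  have hm0 : 0 ≤ m := integral_nonneg fun x => sq_nonneg _
  have he0 : 0 ≤ e := integral_nonneg fun x => sq_nonneg _
  have hB0 : 0 ≤ B := integral_nonneg fun x => abs_nonneg _
  have iB : IntegrableOn (fun x => |w x * deriv w x|) (Icc (a - L) (a + L)) :=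
    (hc.mul hd).abs.integrableOn_Icc
  set D := e + m / L ^ 2 with hD
  have hD0 : 0 ≤ D := by positivity
  set S := Real.sqrt (m * D) with hS
  have hS0 : 0 ≤ S := Real.sqrt_nonneg _
  have hS2 : S ^ 2 = m * D := Real.sq_sqrt (mul_nonneg hm0 hD0)
  have hBS : B ≤ S := by
    apply abs_le_of_sq_le_sq' _ hS0 |>.2
    rw [hS2]
    refine hcs.trans (mul_le_mul_of_nonneg_left ?_ hm0)
    rw [hD]
    have : 0 ≤ m / L ^ 2 := by positivity
    linarith
  have hmS : m / L ≤ S := by
    apply abs_le_of_sq_le_sq' _ hS0 |>.2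
    rw [hS2, div_pow, hD]
    have e1 : m ^ 2 / L ^ 2 = m * (m / L ^ 2) := by ring
    rw [e1]
    exact mul_le_mul_of_nonneg_left (by linarith) hm0
  have hpt : ∀ y ∈ Icc (a - L) (a + L), w x ^ 2 ≤ w y ^ 2 + 2 * B := by
    intro y hy
    have h1 : ∫ s in y..x, 2 * (w s * deriv w s) = w x ^ 2 - w y ^ 2 := by
      apply intervalIntegral.integral_eq_sub_of_hasDerivAt
      · intro s _
        have h2 := ((hw.differentiable one_ne_zero) s).hasDerivAt.pow 2
        refine h2.congr_deriv ?_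
        norm_num
        ring
      · exact (continuous_const.mul (hc.mul hd)).intervalIntegrable _ _
    have h2 := intervalIntegral.norm_integral_le_integral_norm_uIoc
      (f := fun s => 2 * (w s * deriv w s)) (a := y) (b := x) (μ := volume)
    rw [h1] at h2
    have h3 : (∫ s in uIoc y x, ‖2 * (w s * deriv w s)‖) ≤
        ∫ s in Icc (a - L) (a + L), ‖2 * (w s * deriv w s)‖ := by
      apply setIntegral_mono_set
      · exact (continuous_const.mul (hc.mul hd)).norm.integrableOn_Icc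
      · exact ae_of_all _ fun s => norm_nonneg _
      · apply HasSubset.Subset.eventuallyLE
        intro s hs
        have h4 := uIoc_subset_uIcc hs
        exact (Set.uIcc_subset_Icc hy hx) h4
    have h5 : (∫ s in Icc (a - L) (a + L), ‖2 * (w s * deriv w s)‖) = 2 * B := by
      rw [hB, ← integral_const_mul]
      congr 1
      funext s
      rw [Real.norm_eq_abs, abs_mul, abs_two]
    rw [h5] at h3
    have h6 : w x ^ 2 - w y ^ 2 ≤ 2 * B := (le_abs_self _).trans (h2.trans h3)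
    linarith
  have hav : ∫ _y in Icc (a - L) (a + L), w x ^ 2 ≤
      ∫ y in Icc (a - L) (a + L), (w y ^ 2 + 2 * B) := by
    apply setIntegral_mono_on
    · exact continuous_const.integrableOn_Icc
    · exact ((hc.pow 2).add continuous_const).integrableOn_Icc
    · exact measurableSet_Icc
    · exact hpt
  have i1 : IntegrableOn (fun y => w y ^ 2) (Icc (a - L) (a + L)) := (hc.pow 2).integrableOn_Icc
  have i2 : IntegrableOn (fun _ : ℝ => 2 * B) (Icc (a - L) (a + L)) :=
    continuous_const.integrableOn_Icc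
  have hvol : volume.real (Icc (a - L) (a + L)) = 2 * L := by
    rw [Real.volume_real_Icc_of_le (by linarith)]
    ring
  rw [integral_add i1 i2, setIntegral_const, setIntegral_const, hvol, smul_eq_mul,
    smul_eq_mul] at hav
  have h7 : w x ^ 2 ≤ m / L / 2 + 2 * B := by
    have h8 : 2 * L * w x ^ 2 ≤ m + 2 * L * (2 * B) := hav
    rw [div_div, ← sub_le_iff_le_add, le_div_iff₀ (by positivity)]
    nlinarith
  linarith

/-- Packet P5 -/
theorem p5 : S_P5 := by
  intro w a L hw hL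
  have hc : Continuous w := hw.continuous
  have hsup := p5_sup w a L hw hL
  set m := ∫ x in Icc (a - L) (a + L), w x ^ 2 with hm
  set e := ∫ x in Icc (a - L) (a + L), deriv w x ^ 2 with he
  have hm0 : 0 ≤ m := integral_nonneg fun x => sq_nonneg _
  have he0 : 0 ≤ e := integral_nonneg fun x => sq_nonneg _
  set D := e + m / L ^ 2 with hD
  have hD0 : 0 ≤ D := by positivity
  set S := Real.sqrt (m * D) with hS
  have hS0 : 0 ≤ S := Real.sqrt_nonneg _
  have hpt : ∀ x ∈ Icc (a - L) (a + L), |w x| ^ 5 ≤ (Real.sqrt (3 * S)) ^ 3 * w x ^ 2 := by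
    intro x hx
    have h1 : |w x| ≤ Real.sqrt (3 * S) := Real.abs_le_sqrt (hsup x hx)
    have h2 : |w x| ^ 3 ≤ (Real.sqrt (3 * S)) ^ 3 := pow_le_pow_left₀ (abs_nonneg _) h1 3
    calc |w x| ^ 5 = |w x| ^ 3 * |w x| ^ 2 := by ring
      _ ≤ (Real.sqrt (3 * S)) ^ 3 * |w x| ^ 2 := mul_le_mul_of_nonneg_right h2 (by positivity)
      _ = _ := by rw [sq_abs]
  have hint : (∫ x in Icc (a - L) (a + L), |w x| ^ 5) ≤ (Real.sqrt (3 * S)) ^ 3 * m := by
    rw [hm, ← integral_const_mul]
    apply setIntegral_mono_on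
    · exact (hc.abs.pow 5).integrableOn_Icc
    · exact (continuous_const.mul (hc.pow 2)).integrableOn_Icc
    · exact measurableSet_Icc
    · exact hpt
  refine hint.trans ?_
  have h1 : Real.sqrt (3 * S) = Real.sqrt 3 * Real.sqrt S := Real.sqrt_mul (by norm_num) S
  have h2 : (Real.sqrt S) ^ 3 = m ^ ((3 : ℝ) / 4) * D ^ ((3 : ℝ) / 4) := by
    rw [← Real.mul_rpow hm0 hD0, hS, Real.sqrt_eq_rpow, Real.sqrt_eq_rpow,
      ← Real.rpow_mul (mul_nonneg hm0 hD0), ← Real.rpow_natCast,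
      ← Real.rpow_mul (mul_nonneg hm0 hD0)]
    norm_num
  have h3 : (Real.sqrt 3) ^ 3 ≤ 6 := by
    have h4 : Real.sqrt 3 ^ 2 = 3 := Real.sq_sqrt (by norm_num)
    have h5 : Real.sqrt 3 ≤ 2 := by
      rw [Real.sqrt_le_left (by norm_num)]
      norm_num
    have h6 : (Real.sqrt 3) ^ 3 = Real.sqrt 3 ^ 2 * Real.sqrt 3 := by ring
    rw [h6, h4]
    linarith
  have h7 : m ^ ((7 : ℝ) / 4) = m * m ^ ((3 : ℝ) / 4) := by
    have h8 : (7 : ℝ) / 4 = 1 + 3 / 4 := by norm_num
    rw [h8, Real.rpow_add_of_nonneg hm0 (by norm_num) (by norm_num), Real.rpow_one]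
  rw [h1, mul_pow, h2, h7]
  have h9 : 0 ≤ m ^ ((3 : ℝ) / 4) := Real.rpow_nonneg hm0 _
  have h10 : 0 ≤ D ^ ((3 : ℝ) / 4) := Real.rpow_nonneg hD0 _
  calc Real.sqrt 3 ^ 3 * (m ^ ((3 : ℝ) / 4) * D ^ ((3 : ℝ) / 4)) * m
      = Real.sqrt 3 ^ 3 * (m * m ^ ((3 : ℝ) / 4) * D ^ ((3 : ℝ) / 4)) := by ring
    _ ≤ 6 * (m * m ^ ((3 : ℝ) / 4) * D ^ ((3 : ℝ) / 4)) :=
        mul_le_mul_of_nonneg_right h3 (by positivity)
    _ = _ := by ring

end Pool.Agent.Helper61.KV
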