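import Pool.Agent.Helper61.KV.Joint
import Pool.Agent.Helper25.KV.Goals

/-!
# Packet KV-J PKQ: facts on the wave packets
-/

open MeasureTheory Set Filter Topology

noncomputable section

namespace Pool.Agent.Helper61.KV

open Pool.Agent.Helper33.KV Pool.Agent.Helper41.KV Pool.Agent.Helper48.KV

/-- `2^{-j}` -/
def zj (j : ℕ) : ℝ := (2 ^ j)⁻¹

theorem zj_pos (j : ℕ) : 0 < zj j := by unfold zj; positivity

theorem zj_le (j : ℕ) : zj j ≤ 1 := by
  unfold zj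
  exact inv_le_one_of_one_le₀ (one_le_pow₀ (by norm_num))

theorem zj_pow (j k : ℕ) : zj j ^ k = 1 / 2 ^ (k * j) := by
  unfold zj
  rw [inv_pow, one_div, mul_comm k j, pow_mul]

/-- derivatives of the bump -/
def Bi (i : ℕ) : ℝ → ℝ := iteratedDeriv i Pool.Agent.Helper25.KV.bmp

/-- local coordinate -/
def yv (X z x : ℝ) : ℝ := (x + X) * z ^ 20

/-- phase -/
def th (z t x : ℝ) : ℝ := z⁻¹ * x + z⁻¹ ^ 3 * t

def w0 (X z t x : ℝ) : ℝ := z ^ 11 * Bi 0 (yv X z x) * Real.cos (th z t x)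

def w1 (X z t x : ℝ) : ℝ := z ^ 31 * Bi 1 (yv X z x) * Real.cos (th z t x)
  - z ^ 10 * Bi 0 (yv X z x) * Real.sin (th z t x)

def w2 (X z t x : ℝ) : ℝ := z ^ 51 * Bi 2 (yv X z x) * Real.cos (th z t x)
  - 2 * z ^ 30 * Bi 1 (yv X z x) * Real.sin (th z t x)
  - z ^ 9 * Bi 0 (yv X z x) * Real.cos (th z t x)

def w3 (X z t x : ℝ) : ℝ := z ^ 71 * Bi 3 (yv X z x) * Real.cos (th z t x)
  - 3 * z ^ 50 * Bi 2 (yv X z x) * Real.sin (th z t x)
  - 3 * z ^ 29 * Bi 1 (yv X z x) * Real.cos (th z t x)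
  + z ^ 8 * Bi 0 (yv X z x) * Real.sin (th z t x)

def w4 (X z t x : ℝ) : ℝ := z ^ 91 * Bi 4 (yv X z x) * Real.cos (th z t x)
  - 4 * z ^ 70 * Bi 3 (yv X z x) * Real.sin (th z t x)
  - 6 * z ^ 49 * Bi 2 (yv X z x) * Real.cos (th z t x)
  + 4 * z ^ 28 * Bi 1 (yv X z x) * Real.sin (th z t x)
  + z ^ 7 * Bi 0 (yv X z x) * Real.cos (th z t x)

def wt' (X z t x : ℝ) : ℝ := -(z ^ 8 * Bi 0 (yv X z x) * Real.sin (th z t x))

def wtx (X z t x : ℝ) : ℝ := -(z ^ 28 * Bi 1 (yv X z x) * Real.sin (th z t x))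
  - z ^ 7 * Bi 0 (yv X z x) * Real.cos (th z t x)

/-- the source operator -/
def srcO (F : ℝ → ℝ → ℝ) (t x : ℝ) : ℝ :=
  -(deriv (fun s => F s x) t + iteratedDeriv 3 (F t) x + deriv (fun x' => F t x' ^ 5) x)

section

variable (hb : ContDiff ℝ (⊤ : ℕ∞) Pool.Agent.Helper25.KV.bmp)
include hb

theorem Bi_hasDeriv (i : ℕ) (y : ℝ) : HasDerivAt (Bi i) (Bi (i + 1) y) y := by
  have h1 : Differentiable ℝ (Bi i) :=
    hb.differentiable_iteratedDeriv i (by exact_mod_cast WithTop.coe_lt_top i)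
  have h2 := (h1 y).hasDerivAt
  rw [show deriv (Bi i) y = Bi (i + 1) y by rw [Bi, Bi, iteratedDeriv_succ]] at h2
  exact h2

omit hb in
theorem yv_hasDeriv (X z x : ℝ) : HasDerivAt (yv X z) (z ^ 20) x := by
  have h := ((hasDerivAt_id x).add_const X).mul_const (z ^ 20)
  rw [one_mul] at h
  exact h

theorem Bi_yv (X z x : ℝ) (i : ℕ) :
    HasDerivAt (fun x => Bi i (yv X z x)) (Bi (i + 1) (yv X z x) * z ^ 20) x :=
  (Bi_hasDeriv hb i (yv X z x)).comp x (yv_hasDeriv X z x)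

omit hb in
theorem th_hasDeriv (z t x : ℝ) : HasDerivAt (th z t) z⁻¹ x := by
  have h := ((hasDerivAt_id x).const_mul z⁻¹).add_const (z⁻¹ ^ 3 * t)
  rw [mul_one] at h
  exact h

omit hb in
theorem cos_th (z t x : ℝ) :
    HasDerivAt (fun x => Real.cos (th z t x)) (-(z⁻¹ * Real.sin (th z t x))) x := by
  have h := (Real.hasDerivAt_cos (th z t x)).comp x (th_hasDeriv z t x)
  refine h.congr_deriv ?_
  ring

omit hb in
theorem sin_th (z t x : ℝ) :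
    HasDerivAt (fun x => Real.sin (th z t x)) (z⁻¹ * Real.cos (th z t x)) x := by
  have h := (Real.hasDerivAt_sin (th z t x)).comp x (th_hasDeriv z t x)
  refine h.congr_deriv ?_
  ring

theorem tc (X z t x c : ℝ) (i : ℕ) :
    HasDerivAt (fun x => c * Bi i (yv X z x) * Real.cos (th z t x))
      (c * z ^ 20 * Bi (i + 1) (yv X z x) * Real.cos (th z t x)
        - c * z⁻¹ * Bi i (yv X z x) * Real.sin (th z t x)) x := by
  have h := ((Bi_yv hb X z x i).const_mul c).mul (cos_th z t x)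
  refine h.congr_deriv ?_
  ring

theorem ts (X z t x c : ℝ) (i : ℕ) :
    HasDerivAt (fun x => c * Bi i (yv X z x) * Real.sin (th z t x))
      (c * z ^ 20 * Bi (i + 1) (yv X z x) * Real.sin (th z t x)
        + c * z⁻¹ * Bi i (yv X z x) * Real.cos (th z t x)) x := by
  have h := ((Bi_yv hb X z x i).const_mul c).mul (sin_th z t x)
  refine h.congr_deriv ?_
  ring

theorem w0_d {z : ℝ} (hz : 0 < z) (X t x : ℝ) : HasDerivAt (w0 X z t) (w1 X z t x) x := by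
  refine (tc hb X z t x (z ^ 11) 0).congr_deriv ?_
  rw [w1]
  field_simp

theorem w1_d {z : ℝ} (hz : 0 < z) (X t x : ℝ) : HasDerivAt (w1 X z t) (w2 X z t x) x := by
  refine ((tc hb X z t x (z ^ 31) 1).sub (ts hb X z t x (z ^ 10) 0)).congr_deriv ?_
  rw [w2]
  field_simp
  ring

theorem w2_d {z : ℝ} (hz : 0 < z) (X t x : ℝ) : HasDerivAt (w2 X z t) (w3 X z t x) x := by
  refine (((tc hb X z t x (z ^ 51) 2).sub (ts hb X z t x (2 * z ^ 30) 1)).sub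
    (tc hb X z t x (z ^ 9) 0)).congr_deriv ?_
  rw [w3]
  field_simp
  ring

theorem w3_d {z : ℝ} (hz : 0 < z) (X t x : ℝ) : HasDerivAt (w3 X z t) (w4 X z t x) x := by
  refine ((((tc hb X z t x (z ^ 71) 3).sub (ts hb X z t x (3 * z ^ 50) 2)).sub
    (tc hb X z t x (3 * z ^ 29) 1)).add (ts hb X z t x (z ^ 8) 0)).congr_deriv ?_
  rw [w4]
  field_simp
  ring

theorem wt_d {z : ℝ} (hz : 0 < z) (X t x : ℝ) : HasDerivAt (wt' X z t) (wtx X z t x) x := by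
  refine (ts hb X z t x (z ^ 8) 0).neg.congr_deriv ?_
  rw [wtx]
  field_simp
  ring

omit hb in
theorem w0_t {z : ℝ} (hz : 0 < z) (X t x : ℝ) :
    HasDerivAt (fun s => w0 X z s x) (wt' X z t x) t := by
  have h1 : HasDerivAt (fun s => th z s x) (z⁻¹ ^ 3) t := by
    have h := ((hasDerivAt_id t).const_mul (z⁻¹ ^ 3)).const_add (z⁻¹ * x)
    rw [mul_one] at h
    exact h
  have h2 := ((Real.hasDerivAt_cos (th z t x)).comp t h1).const_mul (z ^ 11 * Bi 0 (yv X z x))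
  refine h2.congr_deriv ?_
  rw [wt']
  field_simp

theorem w0_iter {z : ℝ} (hz : 0 < z) (X t : ℝ) :
    deriv (w0 X z t) = w1 X z t ∧ iteratedDeriv 3 (w0 X z t) = w3 X z t := by
  have e1 : deriv (w0 X z t) = w1 X z t := funext fun x => (w0_d hb hz X t x).deriv
  have e2 : deriv (w1 X z t) = w2 X z t := funext fun x => (w1_d hb hz X t x).deriv
  have e3 : deriv (w2 X z t) = w3 X z t := funext fun x => (w2_d hb hz X t x).deriv
  refine ⟨e1, ?_⟩
  rw [iteratedDeriv_succ, iteratedDeriv_succ, iteratedDeriv_one, e1, e2, e3]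

theorem w0_src {z : ℝ} (hz : 0 < z) (X t : ℝ) :
    srcO (w0 X z) t = fun x => -(wt' X z t x + w3 X z t x + 5 * w0 X z t x ^ 4 * w1 X z t x) := by
  funext x
  rw [srcO, (w0_t hz X t x).deriv, (w0_iter hb hz X t).2]
  have h := (w0_d hb hz X t x).pow 5
  have h2 : HasDerivAt (fun x' => w0 X z t x' ^ 5) (5 * w0 X z t x ^ 4 * w1 X z t x) x := by
    refine h.congr_deriv ?_
    norm_num
  rw [h2.deriv]

theorem w0_srcd {z : ℝ} (hz : 0 < z) (X t x : ℝ) :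
    deriv (srcO (w0 X z) t) x = -(wtx X z t x + w4 X z t x +
      (20 * w0 X z t x ^ 3 * w1 X z t x ^ 2 + 5 * w0 X z t x ^ 4 * w2 X z t x)) := by
  rw [w0_src hb hz X t]
  have h1 := ((w0_d hb hz X t x).pow 4).const_mul 5
  have h2 := h1.mul (w1_d hb hz X t x)
  have h3 := (((wt_d hb hz X t x).add (w3_d hb hz X t x)).add h2).neg
  have h4 : HasDerivAt (fun x => -(wt' X z t x + w3 X z t x + 5 * w0 X z t x ^ 4 * w1 X z t x))
      _ x := h3
  rw [h4.deriv]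
  simp only [Pi.pow_apply]
  push_cast
  ring

end

section bounds

variable {D : ℝ}

theorem trm {c D u v : ℝ} (hc : 0 ≤ c) (hu : |u| ≤ D) (hv : |v| ≤ 1) : |c * u * v| ≤ c * D := by
  rw [abs_mul, abs_mul, abs_of_nonneg hc]
  have h0 := abs_nonneg u
  calc c * |u| * |v| ≤ c * |u| * 1 := mul_le_mul_of_nonneg_left hv (by positivity)
    _ ≤ c * D := by rw [mul_one]; exact mul_le_mul_of_nonneg_left hu hc

variable {z : ℝ} (hz : 0 < z) (hz1 : z ≤ 1) (hD : 1 ≤ D) (hB0 : ∀ y, |Bi 0 y| ≤ 1)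
  (hB : ∀ i ≤ 4, ∀ y, |Bi i y| ≤ D)
include hz hz1 hD hB0 hB

omit hz1 hD hB in
theorem w0_le (X t x : ℝ) : |w0 X z t x| ≤ z ^ 11 := by
  have h := trm (c := z ^ 11) (by positivity) (hB0 (yv X z x)) (Real.abs_cos_le_one (th z t x))
  rw [mul_one] at h
  exact h

omit hz1 hD hB in
theorem wt_le (X t x : ℝ) : |wt' X z t x| ≤ z ^ 8 := by
  have h := trm (c := z ^ 8) (by positivity) (hB0 (yv X z x)) (Real.abs_sin_le_one (th z t x))
  rw [mul_one] at h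
  rw [wt', abs_neg]
  exact h

omit hB0 in
theorem w1_le (X t x : ℝ) : |w1 X z t x| ≤ 2 * D * z ^ 10 := by
  have h1 := trm (c := z ^ 31) (by positivity) (hB 1 (by norm_num) (yv X z x))
    (Real.abs_cos_le_one (th z t x))
  have h2 := trm (c := z ^ 10) (by positivity) (hB 0 (by norm_num) (yv X z x))
    (Real.abs_sin_le_one (th z t x))
  have h3 : z ^ 31 ≤ z ^ 10 := pow_le_pow_of_le_one hz.le hz1 (by norm_num)
  rw [w1]
  refine (abs_sub _ _).trans ?_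
  nlinarith

omit hB0 in
theorem w2_le (X t x : ℝ) : |w2 X z t x| ≤ 4 * D * z ^ 9 := by
  have h1 := trm (c := z ^ 51) (by positivity) (hB 2 (by norm_num) (yv X z x))
    (Real.abs_cos_le_one (th z t x))
  have h2 := trm (c := 2 * z ^ 30) (by positivity) (hB 1 (by norm_num) (yv X z x))
    (Real.abs_sin_le_one (th z t x))
  have h3 := trm (c := z ^ 9) (by positivity) (hB 0 (by norm_num) (yv X z x))
    (Real.abs_cos_le_one (th z t x))
  have h4 : z ^ 51 ≤ z ^ 9 := pow_le_pow_of_le_one hz.le hz1 (by norm_num)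
  have h5 : z ^ 30 ≤ z ^ 9 := pow_le_pow_of_le_one hz.le hz1 (by norm_num)
  rw [w2]
  refine (abs_sub _ _).trans ((add_le_add_left (abs_sub _ _) _).trans ?_)
  nlinarith

omit hB0 in
theorem w3t_le (X t x : ℝ) : |wt' X z t x + w3 X z t x| ≤ 7 * D * z ^ 29 := by
  have h1 := trm (c := z ^ 71) (by positivity) (hB 3 (by norm_num) (yv X z x))
    (Real.abs_cos_le_one (th z t x))
  have h2 := trm (c := 3 * z ^ 50) (by positivity) (hB 2 (by norm_num) (yv X z x))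
    (Real.abs_sin_le_one (th z t x))
  have h3 := trm (c := 3 * z ^ 29) (by positivity) (hB 1 (by norm_num) (yv X z x))
    (Real.abs_cos_le_one (th z t x))
  have h4 : z ^ 71 ≤ z ^ 29 := pow_le_pow_of_le_one hz.le hz1 (by norm_num)
  have h5 : z ^ 50 ≤ z ^ 29 := pow_le_pow_of_le_one hz.le hz1 (by norm_num)
  have e : wt' X z t x + w3 X z t x = z ^ 71 * Bi 3 (yv X z x) * Real.cos (th z t x)
    - 3 * z ^ 50 * Bi 2 (yv X z x) * Real.sin (th z t x)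
    - 3 * z ^ 29 * Bi 1 (yv X z x) * Real.cos (th z t x) := by
    rw [wt', w3]
    ring
  rw [e]
  refine (abs_sub _ _).trans ((add_le_add_left (abs_sub _ _) _).trans ?_)
  nlinarith

omit hB0 in
theorem w4t_le (X t x : ℝ) : |wtx X z t x + w4 X z t x| ≤ 14 * D * z ^ 28 := by
  have h1 := trm (c := z ^ 91) (by positivity) (hB 4 (by norm_num) (yv X z x))
    (Real.abs_cos_le_one (th z t x))
  have h2 := trm (c := 4 * z ^ 70) (by positivity) (hB 3 (by norm_num) (yv X z x))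
    (Real.abs_sin_le_one (th z t x))
  have h3 := trm (c := 6 * z ^ 49) (by positivity) (hB 2 (by norm_num) (yv X z x))
    (Real.abs_cos_le_one (th z t x))
  have h3' := trm (c := 3 * z ^ 28) (by positivity) (hB 1 (by norm_num) (yv X z x))
    (Real.abs_sin_le_one (th z t x))
  have h4 : z ^ 91 ≤ z ^ 28 := pow_le_pow_of_le_one hz.le hz1 (by norm_num)
  have h5 : z ^ 70 ≤ z ^ 28 := pow_le_pow_of_le_one hz.le hz1 (by norm_num)
  have h6 : z ^ 49 ≤ z ^ 28 := pow_le_pow_of_le_one hz.le hz1 (by norm_num)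
  have e : wtx X z t x + w4 X z t x = z ^ 91 * Bi 4 (yv X z x) * Real.cos (th z t x)
    - 4 * z ^ 70 * Bi 3 (yv X z x) * Real.sin (th z t x)
    - 6 * z ^ 49 * Bi 2 (yv X z x) * Real.cos (th z t x)
    + 3 * z ^ 28 * Bi 1 (yv X z x) * Real.sin (th z t x) := by
    rw [wtx, w4]
    ring
  rw [e]
  refine (abs_add_le _ _).trans ((add_le_add_left ((abs_sub _ _).trans
    (add_le_add_left (abs_sub _ _) _)) _).trans ?_)
  nlinarith

theorem src_le (X t x : ℝ) :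
    |-(wt' X z t x + w3 X z t x + 5 * w0 X z t x ^ 4 * w1 X z t x)| ≤ 200 * D ^ 2 * z ^ 29 := by
  have h1 := w3t_le hz hz1 hD hB X t x
  have h2 := w0_le hz hB0 X t x
  have h3 := w1_le hz hz1 hD hB X t x
  have h4 : |5 * w0 X z t x ^ 4 * w1 X z t x| ≤ 5 * (z ^ 11) ^ 4 * (2 * D * z ^ 10) := by
    rw [abs_mul, abs_mul, abs_pow, abs_of_pos (by norm_num : (0 : ℝ) < 5)]
    exact mul_le_mul (mul_le_mul_of_nonneg_left (pow_le_pow_left₀ (abs_nonneg _) h2 4)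
      (by norm_num)) h3 (abs_nonneg _) (by positivity)
  have h5 : 5 * (z ^ 11) ^ 4 * (2 * D * z ^ 10) = 10 * D * z ^ 54 := by ring
  have h6 : z ^ 54 ≤ z ^ 29 := pow_le_pow_of_le_one hz.le hz1 (by norm_num)
  rw [abs_neg]
  refine (abs_add_le _ _).trans ((add_le_add h1 h4).trans ?_)
  rw [h5]
  have h7 : D ≤ D ^ 2 := by nlinarith
  have h8 : 0 < z ^ 29 := by positivity
  nlinarith [mul_le_mul_of_nonneg_left h6 (by linarith : (0 : ℝ) ≤ D),
    mul_le_mul_of_nonneg_right h7 h8.le]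

theorem srcd_le (X t x : ℝ) :
    |-(wtx X z t x + w4 X z t x +
      (20 * w0 X z t x ^ 3 * w1 X z t x ^ 2 + 5 * w0 X z t x ^ 4 * w2 X z t x))| ≤
      200 * D ^ 2 * z ^ 28 := by
  have h1 := w4t_le hz hz1 hD hB X t x
  have h2 := w0_le hz hB0 X t x
  have h3 := w1_le hz hz1 hD hB X t x
  have h3' := w2_le hz hz1 hD hB X t x
  have h4 : |20 * w0 X z t x ^ 3 * w1 X z t x ^ 2| ≤ 20 * (z ^ 11) ^ 3 * (2 * D * z ^ 10) ^ 2 := by
    rw [abs_mul, abs_mul, abs_pow, abs_pow, abs_of_pos (by norm_num : (0 : ℝ) < 20)]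
    exact mul_le_mul (mul_le_mul_of_nonneg_left (pow_le_pow_left₀ (abs_nonneg _) h2 3)
      (by norm_num)) (pow_le_pow_left₀ (abs_nonneg _) h3 2) (by positivity) (by positivity)
  have h4' : |5 * w0 X z t x ^ 4 * w2 X z t x| ≤ 5 * (z ^ 11) ^ 4 * (4 * D * z ^ 9) := by
    rw [abs_mul, abs_mul, abs_pow, abs_of_pos (by norm_num : (0 : ℝ) < 5)]
    exact mul_le_mul (mul_le_mul_of_nonneg_left (pow_le_pow_left₀ (abs_nonneg _) h2 4)
      (by norm_num)) h3' (abs_nonneg _) (by positivity)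
  have h5 : 20 * (z ^ 11) ^ 3 * (2 * D * z ^ 10) ^ 2 = 80 * D ^ 2 * z ^ 53 := by ring
  have h5' : 5 * (z ^ 11) ^ 4 * (4 * D * z ^ 9) = 20 * D * z ^ 53 := by ring
  have h6 : z ^ 53 ≤ z ^ 28 := pow_le_pow_of_le_one hz.le hz1 (by norm_num)
  rw [abs_neg]
  refine (abs_add_le _ _).trans ((add_le_add h1 ((abs_add_le _ _).trans
    (add_le_add h4 h4'))).trans ?_)
  rw [h5, h5']
  have h7 : D ≤ D ^ 2 := by nlinarith
  have h8 : 0 < z ^ 28 := by positivity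
  nlinarith [mul_le_mul_of_nonneg_left h6 (by linarith : (0 : ℝ) ≤ D),
    mul_le_mul_of_nonneg_left h6 (by positivity : (0 : ℝ) ≤ D ^ 2),
    mul_le_mul_of_nonneg_right h7 h8.le]

end bounds

theorem two_pow_zj (j : ℕ) : (2 : ℝ) ^ j = (zj j)⁻¹ := by
  unfold zj
  rw [inv_inv]

theorem Lq_eq (j : ℕ) : Lq j = (zj j ^ 20)⁻¹ := by
  unfold Lq zj
  rw [inv_pow, inv_inv, ← pow_mul, mul_comm j 20, pow_mul, pow_mul]
  norm_num

theorem pk_eq (q j : ℕ) (t x : ℝ) :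
    Pool.Agent.Helper25.KV.pk 10 (10 * q) j t x = w0 (Xq q j) (zj j) t x := by
  have h1 : (4 : ℝ) ^ (10 * j) = (zj j ^ 20)⁻¹ := Lq_eq j
  have h2 : (8 : ℝ) ^ j = (zj j)⁻¹ ^ 3 := by
    rw [← two_pow_zj, ← pow_mul, mul_comm j 3, pow_mul]
    norm_num
  have h3 : (2 : ℝ) ^ j * 2 ^ (10 * j) = (zj j ^ 11)⁻¹ := by
    rw [← inv_pow, ← two_pow_zj, ← pow_mul, ← pow_add]
    congr 1
    ring
  unfold Pool.Agent.Helper25.KV.pk w0 Bi yv th Xq
  rw [iteratedDeriv_zero, h1, h2, h3, two_pow_zj, div_inv_eq_mul, div_inv_eq_mul]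
  ring

theorem gq_eq (q k0 n : ℕ) (t x : ℝ) :
    gq q k0 n t x = ∑ i ∈ Finset.Ico k0 (k0 + n), w0 (Xq q i) (zj i) t x := by
  rw [Finset.sum_Ico_eq_sum_range, Nat.add_sub_cancel_left]
  change ∑ k ∈ Finset.range n, Pool.Agent.Helper25.KV.pk 10 (10 * q) (k0 + k) t x = _
  exact Finset.sum_congr rfl fun k _ => pk_eq q (k0 + k) t x

theorem Lq_one (j : ℕ) : 1 ≤ Lq j := one_le_pow₀ (by norm_num)

theorem Xq_four (q j : ℕ) : 4 ≤ Xq q j := by
  have h : (1 : ℝ) ≤ 4 ^ (10 * q * j) := one_le_pow₀ (by norm_num)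
  unfold Xq
  linarith

theorem Lq_le {q : ℕ} (hq : 2 ≤ q) (j : ℕ) : Lq j ≤ Xq q j / 4 := by
  unfold Xq Lq
  rw [mul_div_assoc, mul_comm (4 : ℝ), div_mul_cancel₀ _ (by norm_num : (4 : ℝ) ≠ 0)]
  exact pow_le_pow_right₀ (by norm_num) (by nlinarith [Nat.zero_le j])

theorem Xq_succ {q : ℕ} (hq : 2 ≤ q) (j : ℕ) : 4 * Xq q j ≤ Xq q (j + 1) := by
  unfold Xq
  have h : (4 : ℝ) * 4 ^ (10 * q * j) ≤ 4 ^ (10 * q * (j + 1)) := by
    rw [← pow_succ']
    exact pow_le_pow_right₀ (by norm_num) (by nlinarith)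
  linarith

theorem Xq_mono {q : ℕ} (hq : 2 ≤ q) {i j : ℕ} (h : i ≤ j) : Xq q i ≤ Xq q j := by
  refine monotone_nat_of_le_succ (f := Xq q) (fun k => ?_) h
  have h1 := Xq_succ hq k
  have h2 := Xq_four q k
  linarith

theorem mem_Iq {q : ℕ} (hq : 2 ≤ q) {j : ℕ} {x : ℝ} (hx : x ∈ Iq q j) :
    -(5 / 4 * Xq q j) ≤ x ∧ x ≤ -(3 / 4 * Xq q j) ∧ x ≤ -3 := by
  have h1 := Lq_le hq j
  have h2 := Xq_four q j
  have h3 : -(Xq q j) - Lq j ≤ x := hx.1
  have h4 : x ≤ -(Xq q j) + Lq j := hx.2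
  refine ⟨by linarith, by linarith, by linarith⟩

theorem Iq_disj_lt {q : ℕ} (hq : 2 ≤ q) {i j : ℕ} (hij : i < j) {x : ℝ} (hx : x ∈ Iq q i)
    (hy : x ∈ Iq q j) : False := by
  have h1 := (mem_Iq hq hx).1
  have h2 := (mem_Iq hq hy).2.1
  have h3 := (Xq_succ hq i).trans (Xq_mono hq (Nat.succ_le_of_lt hij))
  have h4 := Xq_four q i
  linarith

theorem Iq_disj {q : ℕ} (hq : 2 ≤ q) {i j : ℕ} (hij : i ≠ j) {x : ℝ} (hx : x ∈ Iq q j) :
    x ∉ Iq q i := by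
  intro hy
  rcases lt_or_gt_of_ne hij with h | h
  · exact Iq_disj_lt hq h hy hx
  · exact Iq_disj_lt hq h hx hy

theorem w0_zero (hb : ∀ y, 1 ≤ |y| → Pool.Agent.Helper25.KV.bmp y = 0) (q j : ℕ) (t : ℝ) {x : ℝ}
    (hx : x ∉ Iq q j) : w0 (Xq q j) (zj j) t x = 0 := by
  have h1 : Lq j < |x + Xq q j| := by
    by_contra h
    rw [not_lt, abs_le] at h
    exact hx ⟨by linarith [h.1], by linarith [h.2]⟩
  have hz := zj_pos j
  have h2 : 1 ≤ |yv (Xq q j) (zj j) x| := by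
    rw [yv, abs_mul, abs_of_pos (by positivity : 0 < zj j ^ 20)]
    rw [Lq_eq] at h1
    have h3 : (zj j ^ 20)⁻¹ * zj j ^ 20 = 1 := inv_mul_cancel₀ (by positivity)
    rw [← h3]
    exact mul_le_mul_of_nonneg_right h1.le (by positivity)
  rw [w0, Bi, iteratedDeriv_zero, hb _ h2]
  ring

theorem src_congr {F G : ℝ → ℝ → ℝ} {U : Set ℝ} (hU : IsOpen U)
    (h : ∀ t, ∀ x ∈ U, F t x = G t x) (t : ℝ) {x : ℝ} (hx : x ∈ U) :
    deriv (F t) x = deriv (G t) x ∧ deriv (fun s => F s x) t = deriv (fun s => G s x) t ∧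
      srcO F t x = srcO G t x ∧ deriv (srcO F t) x = deriv (srcO G t) x := by
  have h1 : ∀ x ∈ U, F t =ᶠ[𝓝 x] G t := by
    intro x hx
    filter_upwards [hU.mem_nhds hx] with y hy
    exact h t y hy
  have h2 : ∀ x ∈ U, deriv (fun s => F s x) t = deriv (fun s => G s x) t := by
    intro x hx
    rw [show (fun s => F s x) = fun s => G s x from funext fun s => h s x hx]
  have h3 : ∀ x ∈ U, srcO F t x = srcO G t x := by
    intro x hx
    have h4 : (fun x' => F t x' ^ 5) =ᶠ[𝓝 x] fun x' => G t x' ^ 5 := by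
      filter_upwards [h1 x hx] with y hy
      rw [hy]
    rw [srcO, srcO, h2 x hx, (h1 x hx).iteratedDeriv_eq, h4.deriv_eq]
  refine ⟨(h1 x hx).deriv_eq, h2 x hx, h3 x hx, ?_⟩
  have h5 : srcO F t =ᶠ[𝓝 x] srcO G t := by
    filter_upwards [hU.mem_nhds hx] with y hy
    exact h3 y hy
  exact h5.deriv_eq

theorem isOpen_off (q : ℕ) (s : Finset ℕ) : IsOpen (⋂ i ∈ s, (Iq q i)ᶜ) :=
  isOpen_biInter_finset fun _ _ => isClosed_Icc.isOpen_compl

theorem bmp_bdd (hb : ContDiff ℝ (⊤ : ℕ∞) Pool.Agent.Helper25.KV.bmp)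
    (hb0 : ∀ y, 1 ≤ |y| → Pool.Agent.Helper25.KV.bmp y = 0) (i : ℕ) :
    ∃ D : ℝ, ∀ y, |Bi i y| ≤ D := by
  have hc : Continuous (Bi i) := hb.continuous_iteratedDeriv i (by exact_mod_cast le_top)
  have hz : ∀ y ∈ (Icc (-1 : ℝ) 1)ᶜ, Pool.Agent.Helper25.KV.bmp y = 0 := by
    intro y hy
    apply hb0
    by_contra h
    rw [not_le, abs_lt] at h
    exact hy ⟨h.1.le, h.2.le⟩
  obtain ⟨D, hD⟩ := hc.bounded_above_of_compact_support
    (HasCompactSupport.intro (isCompact_Icc (a := (-1 : ℝ)) (b := 1)) (fun x hx =>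
      iter_zero_of (isClosed_Icc.isOpen_compl) hz i hx))
  exact ⟨D, hD⟩

theorem bmp_bdd' (hb : ContDiff ℝ (⊤ : ℕ∞) Pool.Agent.Helper25.KV.bmp)
    (hb0 : ∀ y, 1 ≤ |y| → Pool.Agent.Helper25.KV.bmp y = 0) :
    ∃ D : ℝ, 1 ≤ D ∧ ∀ i ≤ 4, ∀ y, |Bi i y| ≤ D := by
  have h := bmp_bdd hb hb0
  choose D hD using h
  refine ⟨1 + ∑ i ∈ Finset.range 5, |D i|, ?_, fun i hi y => ?_⟩
  · have : 0 ≤ ∑ i ∈ Finset.range 5, |D i| := Finset.sum_nonneg fun _ _ => abs_nonneg _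
    linarith
  · have h1 : |D i| ≤ ∑ i ∈ Finset.range 5, |D i| :=
      Finset.single_le_sum (f := fun i => |D i|) (fun _ _ => abs_nonneg _)
        (Finset.mem_range.2 (by omega))
    have h2 := hD i y
    have h3 := le_abs_self (D i)
    linarith

theorem w0_joint (hb : ContDiff ℝ (⊤ : ℕ∞) Pool.Agent.Helper25.KV.bmp) (X z : ℝ) :
    ContDiff ℝ (⊤ : ℕ∞) (fun p : ℝ × ℝ => w0 X z p.1 p.2) := by
  unfold w0
  have h1 : ContDiff ℝ (⊤ : ℕ∞) (fun p : ℝ × ℝ => Bi 0 (yv X z p.2)) := by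
    have h2 : ContDiff ℝ (⊤ : ℕ∞) (fun p : ℝ × ℝ => yv X z p.2) := by
      unfold yv
      fun_prop
    have h3 : Bi 0 = Pool.Agent.Helper25.KV.bmp := by
      unfold Bi
      exact iteratedDeriv_zero
    rw [h3]
    exact hb.comp h2
  have h4 : ContDiff ℝ (⊤ : ℕ∞) (fun p : ℝ × ℝ => Real.cos (th z p.1 p.2)) := by
    unfold th
    fun_prop
  exact (contDiff_const.mul h1).mul h4

theorem gq_joint (hb : ContDiff ℝ (⊤ : ℕ∞) Pool.Agent.Helper25.KV.bmp) (q k0 n : ℕ) :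
    ContDiff ℝ (⊤ : ℕ∞) (fun p : ℝ × ℝ => gq q k0 n p.1 p.2) := by
  have h : (fun p : ℝ × ℝ => gq q k0 n p.1 p.2) = fun p : ℝ × ℝ =>
      ∑ i ∈ Finset.Ico k0 (k0 + n), w0 (Xq q i) (zj i) p.1 p.2 :=
    funext fun p => gq_eq q k0 n p.1 p.2
  rw [h]
  exact ContDiff.sum fun i _ => w0_joint hb _ _

theorem gq_supp (hbz : ∀ y, 1 ≤ |y| → Pool.Agent.Helper25.KV.bmp y = 0) {q : ℕ} (hq : 2 ≤ q)
    (k0 n : ℕ) (t x : ℝ) (hx : x ∉ Icc (-(5 / 4 * Xq q (k0 + n))) (0 : ℝ)) :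
    gq q k0 n t x = 0 := by
  rw [gq_eq]
  refine Finset.sum_eq_zero fun i hi => w0_zero hbz q i t fun hi2 => hx ?_
  have h1 := mem_Iq hq hi2
  have h2 := Xq_mono hq (Finset.mem_Ico.1 hi).2.le
  exact ⟨by linarith [h1.1], by linarith [h1.2.2]⟩

theorem slice {G : ℝ × ℝ → ℝ} (h : ContDiff ℝ (⊤ : ℕ∞) G) (t : ℝ) :
    ContDiff ℝ (⊤ : ℕ∞) (fun x : ℝ => G (t, x)) := by
  have h1 : ContDiff ℝ (⊤ : ℕ∞) (fun x : ℝ => (t, x)) := contDiff_const.prodMk contDiff_id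
  exact h.comp h1

theorem gq_slice (hb : ContDiff ℝ (⊤ : ℕ∞) Pool.Agent.Helper25.KV.bmp) (q k0 n : ℕ) (t : ℝ) :
    ContDiff ℝ (⊤ : ℕ∞) (gq q k0 n t) := slice (gq_joint hb q k0 n) t

theorem gqt_slice (hb : ContDiff ℝ (⊤ : ℕ∞) Pool.Agent.Helper25.KV.bmp)
    (hbz : ∀ y, 1 ≤ |y| → Pool.Agent.Helper25.KV.bmp y = 0) {q : ℕ} (hq : 2 ≤ q)
    (k0 n : ℕ) (t : ℝ) :
    ContDiff ℝ (⊤ : ℕ∞) (gqt q k0 n t) :=
  slice (joint_of (gq_joint hb q k0 n) (gq_supp hbz hq k0 n)).1 t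

theorem Sq_slice (hb : ContDiff ℝ (⊤ : ℕ∞) Pool.Agent.Helper25.KV.bmp)
    (hbz : ∀ y, 1 ≤ |y| → Pool.Agent.Helper25.KV.bmp y = 0) {q : ℕ} (hq : 2 ≤ q)
    (k0 n : ℕ) (t : ℝ) :
    ContDiff ℝ (⊤ : ℕ∞) (Sq q k0 n t) := by
  have hsl := gq_slice hb q k0 n t
  have hslt := gqt_slice hb hbz hq k0 n t
  have h3 : ContDiff ℝ (⊤ : ℕ∞) (iteratedDeriv 3 (gq q k0 n t)) := by
    have e : iteratedDeriv 3 (gq q k0 n t) = fun x =>
        (Dx^[3] (fun p : ℝ × ℝ => gq q k0 n p.1 p.2)) (t, x) := iter_eq (gq_joint hb q k0 n) t 3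
    rw [e]
    exact slice (Dxk_smooth (gq_joint hb q k0 n) 3) t
  have h5 : ContDiff ℝ (⊤ : ℕ∞) (deriv fun x' => gq q k0 n t x' ^ 5) :=
    (contDiff_infty_iff_deriv.1 (hsl.pow 5)).2
  exact ((hslt.add h3).add h5).neg

/-- Packet PKQ -/
theorem pkq (h : Pool.Agent.Helper25.KV.H_GP1) : S_PKQ := by
  obtain ⟨hb, hb0, hb1, hbz, -, -⟩ := h.1
  obtain ⟨D, hD1, hD⟩ := bmp_bdd' hb hbz
  have hB0 : ∀ y, |Bi 0 y| ≤ 1 := by
    intro y
    rw [Bi, iteratedDeriv_zero, abs_of_nonneg (hb0 y)]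
    exact hb1 y
  refine ⟨200 * D ^ 2, by nlinarith, fun q k0 n hq => ⟨?_, ?_, ?_, ?_, ?_, ?_⟩⟩
  · exact fun j => ⟨Lq_one j, Lq_le hq j, Xq_succ hq j, fun x hx => mem_Iq hq hx⟩
  · intro t x hx
    have hU := isOpen_off q (Finset.Ico k0 (k0 + n))
    have hxU : x ∈ ⋂ i ∈ Finset.Ico k0 (k0 + n), (Iq q i)ᶜ := by
      rw [mem_iInter₂]
      exact hx
    have hg : ∀ t, ∀ x ∈ ⋂ i ∈ Finset.Ico k0 (k0 + n), (Iq q i)ᶜ,
        gq q k0 n t x = (fun _ _ => (0 : ℝ)) t x := by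
      intro t x hx
      rw [mem_iInter₂] at hx
      rw [gq_eq]
      exact Finset.sum_eq_zero fun i hi => w0_zero hbz q i t (hx i hi)
    have h1 := src_congr hU hg t hxU
    have h2 : ∀ x, srcO (fun _ _ => (0 : ℝ)) t x = 0 := by
      intro x
      simp [srcO]
    refine ⟨hg t x hxU, ?_, ?_, ?_, ?_⟩
    · rw [h1.1]
      simp
    · exact h1.2.1.trans (by simp)
    · exact h1.2.2.1.trans (h2 x)
    · refine h1.2.2.2.trans ?_
      rw [show srcO (fun _ _ => (0 : ℝ)) t = fun _ => 0 from funext h2]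
      simp
  · intro t x j hj hx
    have hU := isOpen_off q ((Finset.Ico k0 (k0 + n)).erase j)
    have hxU : x ∈ ⋂ i ∈ (Finset.Ico k0 (k0 + n)).erase j, (Iq q i)ᶜ := by
      rw [mem_iInter₂]
      intro i hi
      exact Iq_disj hq (Finset.ne_of_mem_erase hi) hx
    have hg : ∀ t, ∀ x ∈ ⋂ i ∈ (Finset.Ico k0 (k0 + n)).erase j, (Iq q i)ᶜ,
        gq q k0 n t x = w0 (Xq q j) (zj j) t x := by
      intro t x hx
      rw [mem_iInter₂] at hx
      rw [gq_eq]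
      exact Finset.sum_eq_single_of_mem j hj fun i hi hne =>
        w0_zero hbz q i t (hx i (Finset.mem_erase.2 ⟨hne, hi⟩))
    have h1 := src_congr hU hg t hxU
    have hz := zj_pos j
    have hz1 := zj_le j
    have e1 : gqt q k0 n t x = wt' (Xq q j) (zj j) t x :=
      h1.2.1.trans (w0_t hz (Xq q j) t x).deriv
    have e2 : Sq q k0 n t x = -(wt' (Xq q j) (zj j) t x + w3 (Xq q j) (zj j) t x +
        5 * w0 (Xq q j) (zj j) t x ^ 4 * w1 (Xq q j) (zj j) t x) :=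
      h1.2.2.1.trans (congrFun (w0_src hb hz (Xq q j) t) x)
    have e3 : deriv (Sq q k0 n t) x = _ := h1.2.2.2.trans (w0_srcd hb hz (Xq q j) t x)
    refine ⟨?_, ?_, ?_, ?_, ?_⟩
    · rw [hg t x hxU, ← zj_pow]
      exact w0_le hz hB0 _ t x
    · rw [h1.1, (w0_d hb hz (Xq q j) t x).deriv, div_eq_mul_one_div, ← zj_pow]
      refine (w1_le hz hz1 hD1 hD _ t x).trans ?_
      refine mul_le_mul_of_nonneg_right ?_ (by positivity)
      nlinarith
    · rw [e1, ← zj_pow]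
      exact wt_le hz hB0 _ t x
    · rw [e2, div_eq_mul_one_div, ← zj_pow]
      exact src_le hz hz1 hD1 hB0 hD _ t x
    · rw [e3, div_eq_mul_one_div, ← zj_pow]
      exact srcd_le hz hz1 hD1 hB0 hD _ t x
  · intro t1 t2 _
    exact (joint_of (gq_joint hb q k0 n) (gq_supp hbz hq k0 n)).2.2 t1 t2
  · intro t
    have hj := joint_of (gq_joint hb q k0 n) (gq_supp hbz hq k0 n)
    refine ⟨HI_of (gq_slice hb q k0 n t) (gq_supp hbz hq k0 n t),
      HI_of (gqt_slice hb hbz hq k0 n t) (hj.2.1 t), ?_⟩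
    have h6 := Sq_slice hb hbz hq k0 n t
    refine HI_of h6 (a := -(5 / 4 * Xq q (k0 + n))) (b := 0) fun x hx => ?_
    have hU : IsOpen (Icc (-(5 / 4 * Xq q (k0 + n))) (0 : ℝ))ᶜ := isClosed_Icc.isOpen_compl
    have h1 := src_congr (F := gq q k0 n) (G := fun _ _ => 0) hU
      (fun t x hx => gq_supp hbz hq k0 n t x hx) t hx
    refine h1.2.2.1.trans ?_
    simp [srcO]
  · intro u t1 t2 hu t ht x
    have hus : ContDiff ℝ (⊤ : ℕ∞) (u t) := hu.hinf.smooth t ht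
    have hsl := gq_slice hb q k0 n t
    have e1 : iteratedDeriv 3 (fun x => u t x - gq q k0 n t x) x =
        iteratedDeriv 3 (u t) x - iteratedDeriv 3 (gq q k0 n t) x := by
      refine iteratedDeriv_fun_sub ?_ ?_
      · exact (hus.of_le (WithTop.coe_le_coe.2 (le_top : (3 : ℕ∞) ≤ ⊤))).contDiffAt
      · exact (hsl.of_le (WithTop.coe_le_coe.2 (le_top : (3 : ℕ∞) ≤ ⊤))).contDiffAt
    have hu5 : DifferentiableAt ℝ (fun x' => u t x' ^ 5) x :=
      ((contDiff_infty_iff_deriv.1 (hus.pow 5)).1 x)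
    have hg5 : DifferentiableAt ℝ (fun x' => gq q k0 n t x' ^ 5) x :=
      ((contDiff_infty_iff_deriv.1 (hsl.pow 5)).1 x)
    have e2 : deriv (fun x' => nG (gq q k0 n t x') (u t x' - gq q k0 n t x')) x =
        deriv (fun x' => u t x' ^ 5) x - deriv (fun x' => gq q k0 n t x' ^ 5) x := by
      have e3 : (fun x' => nG (gq q k0 n t x') (u t x' - gq q k0 n t x')) =
          fun x' => u t x' ^ 5 - gq q k0 n t x' ^ 5 := by
        funext x'
        rw [nG]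
        ring
      rw [e3]
      exact deriv_fun_sub hu5 hg5
    have e4 : deriv (flux (u t)) x = iteratedDeriv 3 (u t) x + deriv (fun x' => u t x' ^ 5) x := by
      have h2 : DifferentiableAt ℝ (iteratedDeriv 2 (u t)) x :=
        (hus.differentiable_iteratedDeriv 2
          (WithTop.coe_lt_coe.2 (WithTop.coe_lt_top 2 : (2 : ℕ∞) < ⊤))) x
      have e5 : flux (u t) = fun x => iteratedDeriv 2 (u t) x + u t x ^ 5 := rfl
      rw [e5, deriv_fun_add h2 hu5, iteratedDeriv_succ (n := 2)]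
    change -deriv (flux (u t)) x - gqt q k0 n t x +
      iteratedDeriv 3 (fun x => u t x - gq q k0 n t x) x +
      deriv (fun x' => nG (gq q k0 n t x') (u t x' - gq q k0 n t x')) x = Sq q k0 n t x
    rw [e1, e2, e4, Sq]
    ring

end Pool.Agent.Helper61.KV
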