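import Pool.Agent.Helper48.KV.GoalsJ

/-!
# Jointly smooth functions with compact support in space are admissible fields
-/

open MeasureTheory Set Filter Topology

noncomputable section

namespace Pool.Agent.Helper61.KV

open Pool.Agent.Helper33.KV Pool.Agent.Helper41.KV Pool.Agent.Helper48.KV

/-- partial derivative in space -/
def Dx (G : ℝ × ℝ → ℝ) (p : ℝ × ℝ) : ℝ := fderiv ℝ G p (0, 1)

/-- partial derivative in time -/
def Dt (G : ℝ × ℝ → ℝ) (p : ℝ × ℝ) : ℝ := fderiv ℝ G p (1, 0)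

theorem Dx_smooth {G : ℝ × ℝ → ℝ} (h : ContDiff ℝ (⊤ : ℕ∞) G) : ContDiff ℝ (⊤ : ℕ∞) (Dx G) :=
  (contDiff_infty_iff_fderiv.1 h).2.clm_apply contDiff_const

theorem Dt_smooth {G : ℝ × ℝ → ℝ} (h : ContDiff ℝ (⊤ : ℕ∞) G) : ContDiff ℝ (⊤ : ℕ∞) (Dt G) :=
  (contDiff_infty_iff_fderiv.1 h).2.clm_apply contDiff_const

theorem Dx_hasDeriv {G : ℝ × ℝ → ℝ} (h : ContDiff ℝ (⊤ : ℕ∞) G) (t x : ℝ) :
    HasDerivAt (fun x => G (t, x)) (Dx G (t, x)) x :=
  ((contDiff_infty_iff_fderiv.1 h).1 (t, x)).hasFDerivAt.comp_hasDerivAt x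
    ((hasDerivAt_const x t).prodMk (hasDerivAt_id x))

theorem Dt_hasDeriv {G : ℝ × ℝ → ℝ} (h : ContDiff ℝ (⊤ : ℕ∞) G) (t x : ℝ) :
    HasDerivAt (fun s => G (s, x)) (Dt G (t, x)) t :=
  ((contDiff_infty_iff_fderiv.1 h).1 (t, x)).hasFDerivAt.comp_hasDerivAt t
    ((hasDerivAt_id t).prodMk (hasDerivAt_const t x))

theorem Dxk_smooth {G : ℝ × ℝ → ℝ} (h : ContDiff ℝ (⊤ : ℕ∞) G) (k : ℕ) :
    ContDiff ℝ (⊤ : ℕ∞) (Dx^[k] G) := by
  induction k with
  | zero => exact h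
  | succ k ih =>
    rw [Function.iterate_succ_apply']
    exact Dx_smooth ih

theorem iter_eq {G : ℝ × ℝ → ℝ} (h : ContDiff ℝ (⊤ : ℕ∞) G) (t : ℝ) (k : ℕ) :
    iteratedDeriv k (fun x => G (t, x)) = fun x => (Dx^[k] G) (t, x) := by
  induction k with
  | zero => rw [iteratedDeriv_zero]; rfl
  | succ k ih =>
    rw [iteratedDeriv_succ, ih, Function.iterate_succ_apply']
    funext x
    exact (Dx_hasDeriv (Dxk_smooth h k) t x).deriv

theorem fderiv_apply_const {G : ℝ × ℝ → ℝ} (h : ContDiff ℝ (⊤ : ℕ∞) G) (v w q : ℝ × ℝ) :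
    fderiv ℝ (fun p => fderiv ℝ G p v) q w = fderiv ℝ (fderiv ℝ G) q w v := by
  have h1 : DifferentiableAt ℝ (fderiv ℝ G) q :=
    ((contDiff_infty_iff_fderiv.1 (contDiff_infty_iff_fderiv.1 h).2).1 q)
  have h2 : HasFDerivAt (fun p => fderiv ℝ G p v)
      ((ContinuousLinearMap.apply ℝ ℝ v).comp (fderiv ℝ (fderiv ℝ G) q)) q :=
    (ContinuousLinearMap.apply ℝ ℝ v).hasFDerivAt.comp q h1.hasFDerivAt
  rw [h2.fderiv]
  rfl

theorem Dt_Dx {G : ℝ × ℝ → ℝ} (h : ContDiff ℝ (⊤ : ℕ∞) G) : Dt (Dx G) = Dx (Dt G) := by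
  funext q
  have hs : IsSymmSndFDerivAt ℝ G q := by
    apply (h.contDiffAt (x := q)).isSymmSndFDerivAt
    rw [minSmoothness_of_isRCLikeNormedField]
    exact WithTop.coe_le_coe.2 (le_top : (2 : ℕ∞) ≤ ⊤)
  change fderiv ℝ (fun p => fderiv ℝ G p (0, 1)) q (1, 0) =
    fderiv ℝ (fun p => fderiv ℝ G p (1, 0)) q (0, 1)
  rw [fderiv_apply_const h, fderiv_apply_const h]
  exact hs _ _

theorem Dt_Dxk {G : ℝ × ℝ → ℝ} (h : ContDiff ℝ (⊤ : ℕ∞) G) (k : ℕ) :
    Dt (Dx^[k] G) = Dx^[k] (Dt G) := by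
  induction k with
  | zero => rfl
  | succ k ih =>
    rw [Function.iterate_succ_apply', Function.iterate_succ_apply', Dt_Dx (Dxk_smooth h k), ih]

/-- derivatives vanish where the function vanishes on an open set -/
theorem iter_zero_of {f : ℝ → ℝ} {U : Set ℝ} (hU : IsOpen U) (hf : ∀ x ∈ U, f x = 0) (k : ℕ)
    {x : ℝ} (hx : x ∈ U) : iteratedDeriv k f x = 0 := by
  have h : f =ᶠ[𝓝 x] fun _ => (0 : ℝ) := by
    filter_upwards [hU.mem_nhds hx] with y hy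
    exact hf y hy
  rw [h.iteratedDeriv_eq]
  simp

theorem HI_of {f : ℝ → ℝ} {a b : ℝ} (hf : ContDiff ℝ (⊤ : ℕ∞) f)
    (h0 : ∀ x, x ∉ Icc a b → f x = 0) : HI f := by
  refine ⟨hf, fun k => ?_⟩
  have hc : Continuous (iteratedDeriv k f) := hf.continuous_iteratedDeriv k (by exact_mod_cast le_top)
  refine hc.memLp_of_hasCompactSupport (HasCompactSupport.intro (isCompact_Icc (a := a) (b := b)) ?_)
  intro x hx
  exact iter_zero_of (isClosed_Icc.isOpen_compl) (fun y hy => h0 y hy) k hx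

theorem HInf_of {u : ℝ → ℝ → ℝ} {a b : ℝ}
    (hu : ContDiff ℝ (⊤ : ℕ∞) (fun p : ℝ × ℝ => u p.1 p.2))
    (h0 : ∀ t x, x ∉ Icc a b → u t x = 0) (t1 t2 : ℝ) : HInf u t1 t2 := by
  have hsl : ∀ t, ContDiff ℝ (⊤ : ℕ∞) (u t) := fun t =>
    hu.comp (contDiff_const.prodMk contDiff_id)
  have hit : ∀ k t x, iteratedDeriv k (u t) x = (Dx^[k] (fun p : ℝ × ℝ => u p.1 p.2)) (t, x) := by
    intro k t x
    exact congrFun (iter_eq hu t k) x
  have hcont : ∀ k, Continuous (fun p : ℝ × ℝ => iteratedDeriv k (u p.1) p.2) := by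
    intro k
    have : (fun p : ℝ × ℝ => iteratedDeriv k (u p.1) p.2) =
        Dx^[k] (fun p : ℝ × ℝ => u p.1 p.2) := by
      funext p
      exact hit k p.1 p.2
    rw [this]
    exact (Dxk_smooth hu k).continuous
  have hz : ∀ k t x, x ∉ Icc a b → iteratedDeriv k (u t) x = 0 := fun k t x hx =>
    iter_zero_of (isClosed_Icc.isOpen_compl) (fun y hy => h0 t y hy) k hx
  refine ⟨fun t _ => hsl t, fun k => (hcont k).continuousOn, fun k t _ => (HI_of (hsl t)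
    (h0 t)).2 k, fun k => ?_⟩
  obtain ⟨M, hM⟩ := ((isCompact_Icc (a := t1) (b := t2)).prod
    (isCompact_Icc (a := a) (b := b))).exists_bound_of_continuousOn (hcont k).continuousOn
  refine ⟨∫ _x in Icc a b, M ^ 2, fun t ht => ?_⟩
  have h1 : (∫ x, (iteratedDeriv k (u t) x) ^ 2) = ∫ x in Icc a b, (iteratedDeriv k (u t) x) ^ 2 := by
    rw [setIntegral_eq_integral_of_forall_compl_eq_zero]
    intro x hx
    rw [hz k t x hx]
    norm_num
  rw [h1]
  have hc : Continuous (iteratedDeriv k (u t)) :=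
    (hsl t).continuous_iteratedDeriv k (by exact_mod_cast le_top)
  apply setIntegral_mono_on
  · exact (hc.pow 2).integrableOn_Icc
  · exact continuous_const.integrableOn_Icc
  · exact measurableSet_Icc
  · intro x hx
    have h2 := hM (t, x) ⟨ht, hx⟩
    rw [Real.norm_eq_abs] at h2
    rw [← sq_abs]
    exact pow_le_pow_left₀ (abs_nonneg _) h2 2

/-- smooth fields with compact support in space -/
theorem joint_of {u : ℝ → ℝ → ℝ} {a b : ℝ}
    (hu : ContDiff ℝ (⊤ : ℕ∞) (fun p : ℝ × ℝ => u p.1 p.2))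
    (h0 : ∀ t x, x ∉ Icc a b → u t x = 0) :
    ContDiff ℝ (⊤ : ℕ∞) (fun p : ℝ × ℝ => deriv (fun s => u s p.2) p.1) ∧
    (∀ t x, x ∉ Icc a b → deriv (fun s => u s x) t = 0) ∧
    ∀ t1 t2, HInf u t1 t2 ∧ HInf (fun t x => deriv (fun s => u s x) t) t1 t2 ∧
      HasTimeDeriv u (fun t x => deriv (fun s => u s x) t) t1 t2 := by
  have hd : ∀ t x, deriv (fun s => u s x) t = Dt (fun p : ℝ × ℝ => u p.1 p.2) (t, x) := fun t x =>
    (Dt_hasDeriv hu t x).deriv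
  have e1 : (fun p : ℝ × ℝ => deriv (fun s => u s p.2) p.1) = Dt (fun p : ℝ × ℝ => u p.1 p.2) := by
    funext p
    exact hd p.1 p.2
  have h1 : ContDiff ℝ (⊤ : ℕ∞) (fun p : ℝ × ℝ => deriv (fun s => u s p.2) p.1) := by
    rw [e1]
    exact Dt_smooth hu
  have h2 : ∀ t x, x ∉ Icc a b → deriv (fun s => u s x) t = 0 := by
    intro t x hx
    have : (fun s => u s x) = fun _ => 0 := funext fun s => h0 s x hx
    rw [this]
    simp
  refine ⟨h1, h2, fun t1 t2 => ⟨HInf_of hu h0 t1 t2, HInf_of h1 h2 t1 t2, ?_⟩⟩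
  intro k t _ x
  have e2 : (fun τ => iteratedDeriv k (u τ) x) =
      fun τ => (Dx^[k] (fun p : ℝ × ℝ => u p.1 p.2)) (τ, x) := by
    funext τ
    exact congrFun (iter_eq hu τ k) x
  have e3 : iteratedDeriv k ((fun t x => deriv (fun s => u s x) t) t) x =
      (Dx^[k] (Dt (fun p : ℝ × ℝ => u p.1 p.2))) (t, x) := by
    have e4 : ((fun t x => deriv (fun s => u s x) t) t) =
        fun x => Dt (fun p : ℝ × ℝ => u p.1 p.2) (t, x) := by
      funext x
      exact hd t x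
    rw [e4]
    exact congrFun (iter_eq (Dt_smooth hu) t k) x
  rw [e2, e3, ← Dt_Dxk hu k]
  exact (Dt_hasDeriv (Dxk_smooth hu k) t x).hasDerivWithinAt

end Pool.Agent.Helper61.KV
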