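import Pool.Agent.Helper41.KV.GoalsE

/-!
# Project KV: derivatives of polynomials in `tanh (2y)`
-/

set_option autoImplicit false

namespace Pool.Agent.Helper61.KV

open Real

lemma hasDerivAt_c (y : ℝ) : HasDerivAt (fun y => cosh (2 * y)) (2 * sinh (2 * y)) y := by
  have h := (Real.hasDerivAt_cosh (2 * y)).comp y ((hasDerivAt_id y).const_mul 2)
  exact h.congr_deriv (by simp only [mul_one]; ring)

lemma hasDerivAt_s (y : ℝ) : HasDerivAt (fun y => sinh (2 * y)) (2 * cosh (2 * y)) y := by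
  have h := (Real.hasDerivAt_sinh (2 * y)).comp y ((hasDerivAt_id y).const_mul 2)
  exact h.congr_deriv (by simp only [mul_one]; ring)

lemma th_eq (y : ℝ) : tanh (2 * y) = sinh (2 * y) / cosh (2 * y) := Real.tanh_eq_sinh_div_cosh _

lemma th_sq (y : ℝ) : tanh (2 * y) ^ 2 = 1 - 1 / cosh (2 * y) ^ 2 := by
  have hc : cosh (2 * y) ≠ 0 := (Real.cosh_pos _).ne'
  have h := Real.cosh_sq (2 * y)
  rw [th_eq, div_pow, eq_sub_iff_add_eq, ← add_div, ← h, div_self (pow_ne_zero 2 hc)]

lemma hasDerivAt_th (y : ℝ) :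
    HasDerivAt (fun y => tanh (2 * y)) (2 * (1 - tanh (2 * y) ^ 2)) y := by
  have hc : cosh (2 * y) ≠ 0 := (Real.cosh_pos _).ne'
  have h := (hasDerivAt_s y).div (hasDerivAt_c y) hc
  have h2 : (fun y => sinh (2 * y)) / (fun y => cosh (2 * y)) = fun y => tanh (2 * y) := by
    funext x
    rw [Pi.div_apply, th_eq]
  rw [h2] at h
  refine h.congr_deriv ?_
  rw [th_sq]
  have h3 := Real.cosh_sq (2 * y)
  have h4 : sinh (2 * y) ^ 2 = cosh (2 * y) ^ 2 - 1 := by rw [h3]; ring
  have h5 : 2 * cosh (2 * y) * cosh (2 * y) - sinh (2 * y) * (2 * sinh (2 * y)) = 2 := by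
    have : 2 * cosh (2 * y) * cosh (2 * y) - sinh (2 * y) * (2 * sinh (2 * y))
      = 2 * (cosh (2 * y) ^ 2 - sinh (2 * y) ^ 2) := by ring
    rw [this, h4]; ring
  rw [h5]
  ring

lemma contDiff_c : ContDiff ℝ (⊤ : ℕ∞) (fun y : ℝ => cosh (2 * y)) :=
  Real.contDiff_cosh.comp (contDiff_const.mul contDiff_id)

lemma contDiff_th : ContDiff ℝ (⊤ : ℕ∞) (fun y : ℝ => tanh (2 * y)) := by
  have h : (fun y : ℝ => tanh (2 * y)) = fun y => sinh (2 * y) / cosh (2 * y) := by
    funext y; exact th_eq y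
  rw [h]
  exact (Real.contDiff_sinh.comp (contDiff_const.mul contDiff_id)).div contDiff_c
    (fun y => (Real.cosh_pos _).ne')

/-- the derivatives of `w * p (tanh 2y)` when `w' = a (tanh 2y) w` -/
lemma gen (w : ℝ → ℝ) (a : ℝ) (hw : ∀ y, HasDerivAt w (a * tanh (2 * y) * w y) y) (k : ℕ) :
    ∀ p : Polynomial ℝ, ∃ q : Polynomial ℝ, ∀ y,
      iteratedDeriv k (fun y => w y * p.eval (tanh (2 * y))) y = w y * q.eval (tanh (2 * y)) := by
  induction k with
  | zero => intro p; exact ⟨p, fun y => by simp⟩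
  | succ k ih =>
    intro p
    obtain ⟨q, hq⟩ := ih (Polynomial.C a * Polynomial.X * p +
      Polynomial.C 2 * (1 - Polynomial.X ^ 2) * Polynomial.derivative p)
    refine ⟨q, fun y => ?_⟩
    rw [iteratedDeriv_succ']
    have h : deriv (fun y => w y * p.eval (tanh (2 * y))) = fun y => w y *
        (Polynomial.C a * Polynomial.X * p +
        Polynomial.C 2 * (1 - Polynomial.X ^ 2) * Polynomial.derivative p).eval
          (tanh (2 * y)) := by
      funext y
      have h1 := (hw y).mul ((p.hasDerivAt (tanh (2 * y))).comp y (hasDerivAt_th y))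
      have h2 := h1.deriv
      have h3 : (w * ((fun x => Polynomial.eval x p) ∘ fun y => tanh (2 * y))) =
        fun y => w y * p.eval (tanh (2 * y)) := rfl
      rw [h3] at h2
      rw [h2]
      simp only [Polynomial.eval_add, Polynomial.eval_mul, Polynomial.eval_C, Polynomial.eval_X,
        Polynomial.eval_sub, Polynomial.eval_one, Polynomial.eval_pow, Function.comp_apply]
      ring
    rw [h]
    exact hq y

lemma abs_th_le (y : ℝ) : |tanh (2 * y)| ≤ 1 := (Real.abs_tanh_lt_one _).le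

lemma th_bdd (q : Polynomial ℝ) : ∃ C : ℝ, 0 ≤ C ∧ ∀ y : ℝ, |q.eval (tanh (2 * y))| ≤ C := by
  refine ⟨∑ i ∈ Finset.range (q.natDegree + 1), |q.coeff i|,
    Finset.sum_nonneg (fun i _ => abs_nonneg _), fun y => ?_⟩
  rw [Polynomial.eval_eq_sum_range]
  refine (Finset.abs_sum_le_sum_abs _ _).trans (Finset.sum_le_sum fun i _ => ?_)
  rw [abs_mul, abs_pow]
  exact mul_le_of_le_one_right (abs_nonneg _) (pow_le_one₀ (abs_nonneg _) (abs_th_le y))

lemma cosh_le (y : ℝ) : cosh (2 * y) ≤ exp (2 * |y|) := by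
  rw [Real.cosh_eq]
  have h1 : exp (2 * y) ≤ exp (2 * |y|) := exp_le_exp.mpr (by linarith [le_abs_self y])
  have h2 : exp (-(2 * y)) ≤ exp (2 * |y|) := exp_le_exp.mpr (by linarith [neg_abs_le y])
  linarith

lemma le_cosh (y : ℝ) : exp (2 * |y|) ≤ 2 * cosh (2 * y) := by
  rw [Real.cosh_eq]
  have h1 := exp_pos (2 * y)
  have h2 := exp_pos (-(2 * y))
  rcases abs_cases y with ⟨h, -⟩ | ⟨h, -⟩
  · rw [h]; linarith
  · rw [h]
    have : 2 * -y = -(2 * y) := by ring
    rw [this]; linarith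

end Pool.Agent.Helper61.KV
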